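import Pool.Agent.AD.TB.Tr
import Pool.Agent.AD.F.Vel
import Mathlib.Analysis.Complex.AbsMax

/-!
# AD TB SepA: two curves through one point

Two curves of speed one through one point of `X` are equal up to an affine change of the variable, or they separate at a polynomial rate.
-/

set_option autoImplicit false

open Topology Filter Metric

namespace Pool.Agent.AD.TB

open Pool.Agent.H36.BP (EN fs wd Sub Curve)
open Pool.Agent.H14.PP (IsCone CurveAt Tan)
open Pool.Agent.H62.EF (MN pr Lat)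
open Pool.Agent.H5.BD (BC evp)
open Pool.Agent.H22.W (PseudoLength)
open Pool.Agent.AD.BD
open Pool.Agent.AD.F (pd vel)

variable {N d : ℕ} {X : Set (EN N)} {A : Atlas d X} {g : ℂ → EN N} {r₁ τ K : ℝ} {a : ℂ} {i : Fin A.n} {e : Fin d} {ξ : ℂ → ℂ}

theorem eventually_dom (h : Cen A g r₁ τ K a i e ξ) (hX : IsCone X) (hr₁ : 0 < r₁) (hτ : 0 < τ) {F : ℂ → EN N} (hF : Differentiable ℂ F)
    (hFX : ∀ z, F z ∈ X) {z₀ : ℂ} (h0 : pr (F z₀) = pr (g a)) : ∀ᶠ z in 𝓝 z₀, Dom A g τ a i e (F z) := by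
  have hc : ContinuousAt (fun z => dist (pr (g a)) (pr (F z))) z₀ :=
    continuousAt_const.dist ((Pool.Agent.H62.EF.continuousAt_pr (hX.ne_zero (hFX z₀))).comp (f := F) hF.continuous.continuousAt)
  have h1 : dist (pr (g a)) (pr (F z₀)) = 0 := by rw [h0, dist_self]
  have hC := A.one_le
  have hpos : 0 < min A.δ (τ / A.C) := lt_min A.δ_pos (by positivity)
  have h2 : ∀ᶠ z in 𝓝 z₀, dist (pr (g a)) (pr (F z)) < min A.δ (τ / A.C) := hc.eventually_lt_const (by show dist (pr (g a)) (pr (F z₀)) < _; rw [h1]; exact hpos)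
  filter_upwards [h2] with z hz
  refine h.dom hr₁ (hFX z) (hz.le.trans (min_le_left _ _)) ?_
  have h3 := hz.trans_le (min_le_right _ _)
  rw [lt_div_iff₀ (by linarith)] at h3
  linarith

/-- the alternative -/
theorem branch_or (hX : IsCone X) (hr₁ : 0 < r₁) (hτ : 0 < τ) (hK : 1 ≤ K) {b : ℂ} {g' : ℂ → EN N} {ζ : ℂ → ℂ} (h : Cen A g' r₁ τ K b i e ζ)
    (hg : Differentiable ℂ g) (hgX : ∀ z, g z ∈ X) (h0 : pr (g a) = pr (g' b)) :
    (∃ ψ : ℂ → ℂ, AnalyticAt ℂ ψ a ∧ ψ a = b ∧ ∀ᶠ z in 𝓝 a, pr (g z) = pr (g' (ψ z))) ∨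
      ∃ (M : ℕ) (δ k : ℝ), 0 < δ ∧ 0 < k ∧ ∀ z ∈ ball a δ, ∀ w ∈ ball b δ, k * ‖z - a‖ ^ M ≤ pd (g z) (g' w) := by
  have hdom := eventually_dom h hX hr₁ hτ hg hgX h0
  have hda := hdom.self_of_nhds
  have hb : b ∈ ball b r₁ := mem_ball_self hr₁
  have hq : AnalyticAt ℂ (fun z => (A.χ i).q (g z)) a :=
    AnalyticAt.comp (g := (A.χ i).q) (f := g) ((A.χ i).q_an _ hda.1.2.1) (hg.analyticAt a)
  have hfun := h.fun_an (p := (A.χ i).q (g a)) hda.2
  have hpe : AnalyticAt ℂ (fun z => (A.χ i).q (g z) e) a := by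
    have h1 : AnalyticAt ℂ (fun p : Vd d => p e) ((A.χ i).q (g a)) :=
      (ContinuousLinearMap.proj (R := ℂ) (φ := fun _ : Fin d => ℂ) e).analyticAt _
    exact AnalyticAt.comp (g := fun p : Vd d => p e) (f := fun z => (A.χ i).q (g z)) h1 hq
  have hψ : AnalyticAt ℂ (fun z => cpsi A i e ζ (g z)) a :=
    AnalyticAt.comp (g := ζ) (f := fun z => (A.χ i).q (g z) e) (h.xi_an hda.2) hpe
  have hs : AnalyticAt ℂ (fun z => cs A g' i e ζ (g z)) a := by
    have h2 : AnalyticAt ℂ (fun z => qc A i g' (cpsi A i e ζ (g z))) a :=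
      AnalyticAt.comp (g := qc A i g') (f := fun z => cpsi A i e ζ (g z)) (h.an _ (h.psi_mem hda)) hψ
    exact hq.sub h2
  by_cases hz : ∀ᶠ z in 𝓝 a, cs A g' i e ζ (g z) = 0
  · left
    refine ⟨fun z => cpsi A i e ζ (g z), hψ, ?_, ?_⟩
    · have h1 := h.psi_le hK hr₁ hda hb
      rw [h0, dist_self, mul_zero, mul_zero] at h1
      exact sub_eq_zero.1 (norm_le_zero_iff.1 h1)
    · filter_upwards [hz, hdom] with z h1 h2
      have h3 := h.le_s hr₁ h2
      rw [h1, norm_zero, mul_zero] at h3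
      exact dist_le_zero.1 h3
  · right
    obtain ⟨M, f, hf, hf0, hev⟩ := hs.exists_eventuallyEq_pow_smul_nonzero_iff.2 hz
    have hfn : 0 < ‖f a‖ := norm_pos_iff.2 hf0
    have h1 : ∀ᶠ z in 𝓝 a, ‖f a‖ / 2 < ‖f z‖ := hf.continuousAt.norm.eventually_const_lt (by show ‖f a‖ / 2 < ‖f a‖; linarith)
    obtain ⟨δ, hδ, hball⟩ := Metric.eventually_nhds_iff_ball.1 ((hev.and hdom).and h1)
    obtain ⟨S, hS⟩ : ∃ S : ℝ, S = (1 + K ^ 2) * A.C := ⟨_, rfl⟩
    have hC := A.one_le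
    have hS0 : 0 < S := by rw [hS]; positivity
    refine ⟨M, min δ r₁, ‖f a‖ / 2 / S, lt_min hδ hr₁, by positivity, fun z hz w hw => ?_⟩
    obtain ⟨⟨e1, e2⟩, e3⟩ := hball z (ball_subset_ball (min_le_left _ _) hz)
    have h2 := h.s_le hK hr₁ e2 (ball_subset_ball (min_le_right _ _) hw)
    rw [e1, norm_smul, norm_pow, ← hS] at h2
    rw [div_mul_eq_mul_div, div_le_iff₀ hS0]
    have h3 : ‖f a‖ / 2 * ‖z - a‖ ^ M ≤ ‖z - a‖ ^ M * ‖f z‖ := by
      rw [mul_comm]
      exact mul_le_mul_of_nonneg_left e3.le (by positivity)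
    refine h3.trans (h2.trans (le_of_eq ?_))
    rw [mul_comm]
    rfl

/-- an analytic function of constant modulus is locally constant -/
private theorem const_of_norm {f : ℂ → ℂ} {a : ℂ} (hf : AnalyticAt ℂ f a) (h : ∀ᶠ z in 𝓝 a, ‖f z‖ = 1) : ∀ᶠ z in 𝓝 a, f z = f a := by
  refine Complex.eventually_eq_of_isLocalMax_norm ?_ ?_
  · exact hf.eventually_analyticAt.mono fun z hz => hz.differentiableAt
  · have h0 := h.self_of_nhds
    filter_upwards [h] with z hz
    show ‖f z‖ ≤ ‖f a‖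
    rw [hz, h0]

/-- two entire curves which agree near a point agree -/
theorem pr_eq_of_eventually {F G : ℂ → EN N} (hF : Differentiable ℂ F) (hG : Differentiable ℂ G) (hF0 : ∀ z, F z ≠ 0) (hG0 : ∀ z, G z ≠ 0) {a : ℂ}
    (h : ∀ᶠ z in 𝓝 a, pr (F z) = pr (G z)) (z : ℂ) : pr (F z) = pr (G z) := by
  have hcoord : ∀ {G : ℂ → EN N}, Differentiable ℂ G → ∀ i, Differentiable ℂ (fun z => G z i) := fun hG i => by
    exact (EuclideanSpace.proj (𝕜 := ℂ) i).differentiable.comp hG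
  have hmin : ∀ i j : Fin (N + 1), ∀ z, F z i * G z j - F z j * G z i = 0 := by
    intro i j
    have hd : Differentiable ℂ (fun z => F z i * G z j - F z j * G z i) :=
      ((hcoord hF i).mul (hcoord hG j)).sub ((hcoord hF j).mul (hcoord hG i))
    have han : AnalyticOnNhd ℂ (fun z => F z i * G z j - F z j * G z i) Set.univ := fun z _ => hd.analyticAt z
    have hev : (fun z => F z i * G z j - F z j * G z i) =ᶠ[𝓝 a] 0 := by
      filter_upwards [h] with z hz
      obtain ⟨c, -, hc⟩ := (Pool.Agent.H62.EF.pr_eq_iff (hF0 z) (hG0 z)).1 hz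
      rw [hc]
      simp only [PiLp.smul_apply, smul_eq_mul, Pi.zero_apply]
      ring
    have := han.eqOn_zero_of_preconnected_of_eventuallyEq_zero isPreconnected_univ (Set.mem_univ a) hev
    intro z
    exact this (Set.mem_univ z)
  obtain ⟨i, hi⟩ : ∃ i, G z i ≠ 0 := by
    by_contra hcon
    push Not at hcon
    apply hG0 z
    ext i
    simpa using hcon i
  have hall : F z = (F z i / G z i) • G z := by
    ext j
    have h1 := hmin i j z
    rw [PiLp.smul_apply, smul_eq_mul, div_mul_eq_mul_div, eq_div_iff hi]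
    linear_combination -h1
  refine (Pool.Agent.H62.EF.pr_eq_iff (hF0 z) (hG0 z)).2 ⟨F z i / G z i, ?_, hall⟩
  intro h0
  apply hF0 z
  rw [hall, h0, zero_smul]

/-- two curves of speed one with a common germ are equal up to an affine change of the variable -/
theorem rigid (hX : IsCone X) (ν : PseudoLength X) {g g' : ℂ → EN N} (hg : Differentiable ℂ g) (hgX : ∀ z, g z ∈ X) (hg' : Differentiable ℂ g')
    (hgX' : ∀ z, g' z ∈ X) (hν : ∀ z, vel ν g z = 1) (hν' : ∀ z, vel ν g' z = 1) {a b : ℂ} {ψ : ℂ → ℂ} (hψ : AnalyticAt ℂ ψ a) (hab : ψ a = b)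
    (h : ∀ᶠ z in 𝓝 a, pr (g z) = pr (g' (ψ z))) : ∃ α β : ℂ, ‖α‖ = 1 ∧ b = α * a + β ∧ ∀ z, pr (g z) = pr (g' (α * z + β)) := by
  have hne : ∀ z, g z ≠ 0 := fun z => hX.ne_zero (hgX z)
  have hne' : ∀ z, g' z ≠ 0 := fun z => hX.ne_zero (hgX' z)
  -- the modulus of the derivative
  have hmod : ∀ᶠ z in 𝓝 a, ‖deriv ψ z‖ = 1 := by
    filter_upwards [h.eventually_nhds, hψ.eventually_analyticAt] with z₁ h1 h2
    obtain ⟨i, hi⟩ : ∃ i, g' (ψ z₁) i ≠ 0 := by
      by_contra hcon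
      push Not at hcon
      apply hne' (ψ z₁)
      ext i
      simpa using hcon i
    have hcoord : ∀ {G : ℂ → EN N}, Differentiable ℂ G → Differentiable ℂ (fun z => G z i) := fun hG => by
      exact (EuclideanSpace.proj (𝕜 := ℂ) i).differentiable.comp hG
    have hgψ : AnalyticAt ℂ (fun z => g' (ψ z)) z₁ := AnalyticAt.comp (g := g') (f := ψ) (hg'.analyticAt _) h2
    have hgi : AnalyticAt ℂ (fun z => g' (ψ z) i) z₁ := AnalyticAt.comp (g := fun w => g' w i) (f := ψ) ((hcoord hg').analyticAt _) h2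
    obtain ⟨c, hc⟩ : ∃ c : ℂ → ℂ, c = fun z => g z i / g' (ψ z) i := ⟨_, rfl⟩
    have hcan : AnalyticAt ℂ c z₁ := by
      rw [hc]
      exact ((hcoord hg).analyticAt z₁).div hgi hi
    have hev : ∀ᶠ z in 𝓝 z₁, g z = c z • g' (ψ z) := by
      filter_upwards [h1, hgi.continuousAt.eventually_ne hi] with z h3 h4
      obtain ⟨t, -, ht⟩ := (Pool.Agent.H62.EF.pr_eq_iff (hne z) (hne' (ψ z))).1 h3
      have h5 : c z = t := by
        rw [hc]
        show g z i / g' (ψ z) i = t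
        rw [div_eq_iff h4, ht, PiLp.smul_apply, smul_eq_mul]
      rw [h5]
      exact ht
    have hc0 : c z₁ ≠ 0 := by
      intro h0
      apply hne z₁
      rw [hev.self_of_nhds, h0, zero_smul]
    have hd1 : HasDerivAt (fun z => g' (ψ z)) (deriv ψ z₁ • deriv g' (ψ z₁)) z₁ :=
      (hg' (ψ z₁)).hasDerivAt.scomp z₁ h2.differentiableAt.hasDerivAt
    have hd2 : HasDerivAt (fun z => c z • g' (ψ z)) (c z₁ • (deriv ψ z₁ • deriv g' (ψ z₁)) + deriv c z₁ • g' (ψ z₁)) z₁ :=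
      hcan.differentiableAt.hasDerivAt.smul hd1
    have hd3 : deriv g z₁ = c z₁ • (deriv ψ z₁ • deriv g' (ψ z₁)) + deriv c z₁ • g' (ψ z₁) := by
      have h3 : g =ᶠ[𝓝 z₁] fun z => c z • g' (ψ z) := hev
      rw [h3.deriv_eq, hd2.deriv]
    have htan : Tan X (g' (ψ z₁)) (deriv g' (ψ z₁)) := Pool.Agent.H22.W.tan_entire hg' hgX' _
    have htan' : Tan X (g' (ψ z₁)) (deriv ψ z₁ • deriv g' (ψ z₁)) := by
      have h4 : Tan X ((fun z => g' (ψ z)) z₁) (deriv (fun z => g' (ψ z)) z₁) :=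
        Pool.Agent.H22.W.tan_curve ⟨hgψ, Eventually.of_forall fun z => hgX' _⟩
      rw [hd1.deriv] at h4
      exact h4
    have h5 : vel ν g z₁ = ‖deriv ψ z₁‖ * vel ν g' (ψ z₁) := by
      unfold vel
      rw [hd3, hev.self_of_nhds, ν.inv hX htan' hc0, ν.smul _ _ htan]
    rw [hν, hν', mul_one] at h5
    exact h5.symm
  have hconst := const_of_norm hψ.deriv hmod
  obtain ⟨α, hα⟩ : ∃ α : ℂ, α = deriv ψ a := ⟨_, rfl⟩
  have haff : ∀ᶠ z in 𝓝 a, ψ z = α * z + (b - α * a) := by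
    obtain ⟨δ, hδ, hball⟩ := Metric.eventually_nhds_iff_ball.1 (hconst.and hψ.eventually_analyticAt)
    rw [Metric.eventually_nhds_iff_ball]
    refine ⟨δ, hδ, fun z hz => ?_⟩
    have h1 : ∀ w ∈ ball a δ, HasDerivWithinAt (fun w => ψ w - α * w) 0 (ball a δ) w := by
      intro w hw
      have h2 := (hball w hw).2.differentiableAt.hasDerivAt.sub ((hasDerivAt_id w).const_mul α)
      rw [(hball w hw).1, mul_one, hα, sub_self] at h2
      rw [hα]
      exact h2.hasDerivWithinAt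
    have h3 := (convex_ball a δ).norm_image_sub_le_of_norm_hasDerivWithin_le (𝕜 := ℂ) (C := 0) h1 (fun w _ => by rw [norm_zero])
      (mem_ball_self hδ) hz
    rw [zero_mul] at h3
    have h4 : ψ z - α * z - (ψ a - α * a) = 0 := norm_le_zero_iff.1 h3
    rw [hab] at h4
    linear_combination h4
  refine ⟨α, b - α * a, ?_, by ring, ?_⟩
  · rw [hα]
    exact hmod.self_of_nhds
  · have hG : Differentiable ℂ (fun z => g' (α * z + (b - α * a))) := hg'.comp (by fun_prop)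
    refine pr_eq_of_eventually hg hG hne (fun z => hne' _) ?_ (a := a)
    filter_upwards [h, haff] with z h1 h2
    rw [h1, h2]

end Pool.Agent.AD.TB
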