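import Pool.Agent.AD.TB.Tr
import Pool.Agent.AD.F.Defs
import Pool.Agent.H62.EF.PrLip
import Mathlib.Topology.Order.Lattice

/-!
# AD TB Tube: the tube around a doubly periodic curve with bounded distortion
-/

set_option autoImplicit false

open Topology Filter Metric

namespace Pool.Agent.AD.TB

open Pool.Agent.H36.BP (EN fs wd Sub fs_inv)
open Pool.Agent.H14.PP (IsCone CurveAt Tan)
open Pool.Agent.H62.EF (MN pr Lat)
open Pool.Agent.H5.BD (BC evp)
open Pool.Agent.AD.BD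
open Pool.Agent.AD.F (pd Tube)

variable {N d : ℕ} {X : Set (EN N)} {m J : ℕ} {A : Atlas d X} {g : ℂ → EN N} {r₁ τ K : ℝ} {a : ℂ} {i : Fin A.n} {e : Fin d} {ξ : ℂ → ℂ}

/-- a point near `g a` is in the domain of the coordinates of a centre near `a` -/
theorem Cen.near {c L r₀ c₁ K₀ : ℝ} (lc : LC A c L r₀ c₁ K₀) (hg : g ∈ BC X c L) (hr₁ : 0 < r₁) (hK : 1 ≤ K) {a' : ℂ} (h : Cen A g r₁ τ K a' i e ξ)
    {r ε : ℝ} (ha : ‖a' - a‖ ≤ r) (hr : r < r₁) {x : EN N} (hx : x ∈ X) (hpd : pd x (g a) < ε) (hδ : 2 * L * r + ε ≤ A.δ)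
    (hτ : A.C * (2 * L * r + ε) ≤ τ) : Dom A g τ a' i e x ∧ ‖cpsi A i e ξ x - a‖ ≤ K * (A.C * pd x (g a)) := by
  have hC := A.one_le
  have h1 : dist (pr (g a')) (pr x) < 2 * L * r + ε := by
    have h2 := lc.lip g hg a' a
    have h3 : 2 * L * ‖a' - a‖ ≤ 2 * L * r := mul_le_mul_of_nonneg_left ha (by have := lc.L_pos; positivity)
    have h4 := dist_triangle (pr (g a')) (pr (g a)) (pr x)
    have h5 : dist (pr (g a)) (pr x) < ε := by rw [dist_comm]; exact hpd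
    linarith
  have hdom : Dom A g τ a' i e x := by
    refine h.dom hr₁ hx (h1.le.trans hδ) (lt_of_lt_of_le ?_ hτ)
    exact mul_lt_mul_of_pos_left h1 (by linarith)
  refine ⟨hdom, h.psi_le hK hr₁ hdom ?_⟩
  rw [mem_ball, dist_eq_norm, norm_sub_rev]
  exact ha.trans_lt hr

private theorem rpow_m (hm : 1 ≤ m) {t : ℝ} (ht : 0 ≤ t) : (t ^ m) ^ (1 / (m : ℝ)) = t := by
  rw [one_div, Real.pow_rpow_inv_natCast ht (by omega)]

theorem W_le {b B q : ℝ} (hm : 1 ≤ m) (Ω : Fin J → BForm d X m) {x : EN N} (hB : 0 < B) (hq : 0 ≤ q)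
    (h : b * ‖cs A g i e ξ x‖ ^ m ≤ cV A Ω g i e ξ x ∧ cV A Ω g i e ξ x ≤ B * ‖cs A g i e ξ x‖ ^ m) :
    cW A Ω g q a i e ξ x ≤ B ^ (1 / (m : ℝ)) * ‖cs A g i e ξ x‖ := by
  unfold cW
  have h1 : Real.exp (-q * ‖cpsi A i e ξ x - a‖ ^ 2) ≤ 1 := by
    rw [Real.exp_le_one_iff]
    have : 0 ≤ q * ‖cpsi A i e ξ x - a‖ ^ 2 := by positivity
    linarith
  have h2 : cV A Ω g i e ξ x ^ (1 / (m : ℝ)) ≤ B ^ (1 / (m : ℝ)) * ‖cs A g i e ξ x‖ := by
    have h3 := Real.rpow_le_rpow (cV_nonneg A Ω g i e ξ x) h.2 (by positivity : 0 ≤ 1 / (m : ℝ))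
    rw [Real.mul_rpow hB.le (by positivity), rpow_m hm (norm_nonneg _)] at h3
    exact h3
  calc cV A Ω g i e ξ x ^ (1 / (m : ℝ)) * Real.exp (-q * ‖cpsi A i e ξ x - a‖ ^ 2) ≤ cV A Ω g i e ξ x ^ (1 / (m : ℝ)) * 1 :=
        mul_le_mul_of_nonneg_left h1 (Real.rpow_nonneg (cV_nonneg _ _ _ _ _ _ _) _)
    _ ≤ _ := by rw [mul_one]; exact h2

theorem le_W {b B q : ℝ} (hm : 1 ≤ m) (Ω : Fin J → BForm d X m) {x : EN N} (hb : 0 < b)
    (h : b * ‖cs A g i e ξ x‖ ^ m ≤ cV A Ω g i e ξ x ∧ cV A Ω g i e ξ x ≤ B * ‖cs A g i e ξ x‖ ^ m) (hψ : q * ‖cpsi A i e ξ x - a‖ ^ 2 ≤ 1) :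
    ‖cs A g i e ξ x‖ ≤ (b ^ (1 / (m : ℝ)))⁻¹ * Real.exp 1 * cW A Ω g q a i e ξ x := by
  unfold cW
  have hb' : 0 < b ^ (1 / (m : ℝ)) := Real.rpow_pos_of_pos hb _
  have h2 : b ^ (1 / (m : ℝ)) * ‖cs A g i e ξ x‖ ≤ cV A Ω g i e ξ x ^ (1 / (m : ℝ)) := by
    have h3 := Real.rpow_le_rpow (by positivity) h.1 (by positivity : 0 ≤ 1 / (m : ℝ))
    rw [Real.mul_rpow hb.le (by positivity), rpow_m hm (norm_nonneg _)] at h3
    exact h3
  have h3 : 1 ≤ Real.exp 1 * Real.exp (-q * ‖cpsi A i e ξ x - a‖ ^ 2) := by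
    rw [← Real.exp_add]
    apply Real.one_le_exp
    linarith
  have h4 : ‖cs A g i e ξ x‖ ≤ (b ^ (1 / (m : ℝ)))⁻¹ * cV A Ω g i e ξ x ^ (1 / (m : ℝ)) := by
    rw [le_inv_mul_iff₀ hb']
    exact h2
  have h5 : 0 ≤ (b ^ (1 / (m : ℝ)))⁻¹ * cV A Ω g i e ξ x ^ (1 / (m : ℝ)) :=
    mul_nonneg (by positivity) (Real.rpow_nonneg (cV_nonneg _ _ _ _ _ _ _) _)
  calc ‖cs A g i e ξ x‖ ≤ ((b ^ (1 / (m : ℝ)))⁻¹ * cV A Ω g i e ξ x ^ (1 / (m : ℝ))) * 1 := by rw [mul_one]; exact h4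
    _ ≤ ((b ^ (1 / (m : ℝ)))⁻¹ * cV A Ω g i e ξ x ^ (1 / (m : ℝ))) * (Real.exp 1 * Real.exp (-q * ‖cpsi A i e ξ x - a‖ ^ 2)) :=
        mul_le_mul_of_nonneg_left h3 h5
    _ = _ := by ring

/-- a centre far from the foot of `x` loses against a centre near it -/
theorem W_lose (hm : 1 ≤ m) (Ω : Fin J → BForm d X m) {q r : ℝ} (hq : 0 < q) (hr : 0 < r) {x : EN N} {a' : ℂ} {i' : Fin A.n} {e' : Fin d} {ξ' : ℂ → ℂ}
    (hV : cV A Ω g i e ξ x ≤ Real.exp (q * r ^ 2 / 4) * cV A Ω g i' e' ξ' x) (h1 : 5 * r / 8 ≤ ‖cpsi A i e ξ x - a‖)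
    (h2 : ‖cpsi A i' e' ξ' x - a'‖ ≤ r / 4) : cW A Ω g q a i e ξ x ≤ cW A Ω g q a' i' e' ξ' x := by
  unfold cW
  have hV0 := cV_nonneg A Ω g i' e' ξ' x
  have hVp : 0 ≤ cV A Ω g i' e' ξ' x ^ (1 / (m : ℝ)) := Real.rpow_nonneg hV0 _
  have h3 : cV A Ω g i e ξ x ^ (1 / (m : ℝ)) ≤ Real.exp (q * r ^ 2 / 4) * cV A Ω g i' e' ξ' x ^ (1 / (m : ℝ)) := by
    have h4 := Real.rpow_le_rpow (cV_nonneg A Ω g i e ξ x) hV (by positivity : 0 ≤ 1 / (m : ℝ))
    rw [Real.mul_rpow (Real.exp_pos _).le hV0] at h4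
    refine h4.trans (mul_le_mul_of_nonneg_right ?_ hVp)
    have h5 : (1 : ℝ) / m ≤ 1 := by
      rw [div_le_one (by exact_mod_cast (by omega : 0 < m))]
      exact_mod_cast hm
    have h6 := Real.rpow_le_rpow_of_exponent_le (Real.one_le_exp (by positivity : 0 ≤ q * r ^ 2 / 4)) h5
    rw [Real.rpow_one] at h6
    exact h6
  have h4 : Real.exp (-q * ‖cpsi A i e ξ x - a‖ ^ 2) ≤ Real.exp (-q * (5 * r / 8) ^ 2) := by
    apply Real.exp_le_exp.2
    have h5 := pow_le_pow_left₀ (by positivity) h1 2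
    nlinarith
  have h5 : Real.exp (-q * (r / 4) ^ 2) ≤ Real.exp (-q * ‖cpsi A i' e' ξ' x - a'‖ ^ 2) := by
    apply Real.exp_le_exp.2
    have h5 := pow_le_pow_left₀ (norm_nonneg _) h2 2
    nlinarith
  have h6 : Real.exp (q * r ^ 2 / 4) * Real.exp (-q * (5 * r / 8) ^ 2) ≤ Real.exp (-q * (r / 4) ^ 2) := by
    rw [← Real.exp_add]
    apply Real.exp_le_exp.2
    have : 0 < q * r ^ 2 := by positivity
    nlinarith
  calc cV A Ω g i e ξ x ^ (1 / (m : ℝ)) * Real.exp (-q * ‖cpsi A i e ξ x - a‖ ^ 2)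
      ≤ (Real.exp (q * r ^ 2 / 4) * cV A Ω g i' e' ξ' x ^ (1 / (m : ℝ))) * Real.exp (-q * (5 * r / 8) ^ 2) :=
        mul_le_mul h3 h4 (Real.exp_pos _).le (mul_nonneg (Real.exp_pos _).le hVp)
    _ = cV A Ω g i' e' ξ' x ^ (1 / (m : ℝ)) * (Real.exp (q * r ^ 2 / 4) * Real.exp (-q * (5 * r / 8) ^ 2)) := by ring
    _ ≤ cV A Ω g i' e' ξ' x ^ (1 / (m : ℝ)) * Real.exp (-q * (r / 4) ^ 2) := mul_le_mul_of_nonneg_left h6 hVp
    _ ≤ _ := mul_le_mul_of_nonneg_left h5 hVp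

/-- **The tube.** -/
theorem exists_tube (hX : IsCone X) (A : Atlas d X) {c L r₀ c₁ K₀ : ℝ} (lc : LC A c L r₀ c₁ K₀) (hm : 1 ≤ m) (Ω : Fin J → BForm d X m) (hΩ : NoZero Ω)
    {g : ℂ → EN N} (hg : g ∈ BC X c L) {Λ : AddSubgroup ℂ} (hΛ : Lat Λ) (hper : ∀ l ∈ Λ, ∀ z, pr (g (z + l)) = pr (g z)) :
    ∃ rmax κ C : ℝ, 0 < rmax ∧ 0 < κ ∧ 1 ≤ C ∧ ∀ r, 0 < r → r ≤ rmax → ∃ ε₀, 0 < ε₀ ∧ ∀ ε, 0 < ε → ε ≤ ε₀ →
      ∃ ρ : ℂ → EN N → ℝ, Tube X g Λ r ε κ C ρ := by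
  classical
  obtain ⟨r₁, τ, K, hr₁, hτ, hK, hcen⟩ := exists_cen lc
  obtain ⟨b, B, hb, hB, hbd⟩ := cV_bounds hX hm A Ω hΩ r₁ τ (K := K)
  obtain ⟨q₀, hq₀, hsub⟩ := exists_cen_sub hX hm A Ω hK
  have hAC : 1 ≤ A.C := A.one_le
  have hAδ := A.δ_pos
  have hL := lc.L_pos
  have hm0 : (0 : ℝ) < m := by exact_mod_cast (by omega : 0 < m)
  have hgX : ∀ z, g z ∈ X := hg.2.1
  obtain ⟨q, hq⟩ : ∃ q : ℝ, q = min q₀ 1 := ⟨_, rfl⟩
  have hq0 : 0 < q := by rw [hq]; exact lt_min hq₀ one_pos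
  have hqq : q ≤ q₀ := by rw [hq]; exact min_le_left _ _
  have hq1 : q ≤ 1 := by rw [hq]; exact min_le_right _ _
  obtain ⟨b', hb'⟩ : ∃ b' : ℝ, b' = (b ^ (1 / (m : ℝ)))⁻¹ * Real.exp 1 := ⟨_, rfl⟩
  obtain ⟨B', hB'⟩ : ∃ B' : ℝ, B' = B ^ (1 / (m : ℝ)) := ⟨_, rfl⟩
  have hb'0 : 0 < b' := by
    rw [hb']
    exact mul_pos (inv_pos.2 (Real.rpow_pos_of_pos hb _)) (Real.exp_pos _)
  have hB'0 : 0 < B' := by
    rw [hB']
    exact Real.rpow_pos_of_pos hB _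
  obtain ⟨S, hS⟩ : ∃ S : ℝ, S = (1 + K ^ 2) * A.C := ⟨_, rfl⟩
  obtain ⟨P, hP⟩ : ∃ P : ℝ, P = K * A.C := ⟨_, rfl⟩
  have hS0 : 0 < S := by rw [hS]; positivity
  have hP0 : 0 < P := by rw [hP]; positivity
  obtain ⟨rmax, hrmax⟩ : ∃ rmax : ℝ, rmax = min (min (r₁ / 8) 1) (min (A.δ / (8 * L)) (τ / (8 * L * A.C))) := ⟨_, rfl⟩
  have hrm0 : 0 < rmax := by
    rw [hrmax]
    exact lt_min (lt_min (by positivity) one_pos) (lt_min (by positivity) (by positivity))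
  have hrm1 : rmax ≤ r₁ / 8 := by rw [hrmax]; exact (min_le_left _ _).trans (min_le_left _ _)
  have hrm2 : rmax ≤ 1 := by rw [hrmax]; exact (min_le_left _ _).trans (min_le_right _ _)
  have hrm3 : rmax ≤ A.δ / (8 * L) := by rw [hrmax]; exact (min_le_right _ _).trans (min_le_left _ _)
  have hrm4 : rmax ≤ τ / (8 * L * A.C) := by rw [hrmax]; exact (min_le_right _ _).trans (min_le_right _ _)
  refine ⟨rmax, 1 / (4 * m), 1 + A.C * b' + B' * S + P, hrm0, by positivity, ?_, fun r hr hrr => ?_⟩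
  · have h1 : 0 < A.C * b' + B' * S + P := by positivity
    linarith
  have hr8 : 8 * r ≤ r₁ := by linarith
  have hr1 : r ≤ 1 := by linarith
  have hrδ : 2 * L * r ≤ A.δ / 4 := by
    have h1 := hrr.trans hrm3
    rw [le_div_iff₀ (by positivity)] at h1
    linarith
  have hrτ : A.C * (2 * L * r) ≤ τ / 4 := by
    have h1 := hrr.trans hrm4
    rw [le_div_iff₀ (by positivity)] at h1
    linarith
  obtain ⟨n, p, hn, hnet⟩ := exists_net hΛ (s := r / 8) (by positivity)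
  choose ic ec ξc hC using fun f => hcen g hg (p f)
  obtain ⟨ε₁, hε₁, hcmp⟩ := cen_cmp hX hm A Ω hΩ (r₁ := r₁) (τ := τ) (K := K) hr₁ hK (η := q * r ^ 2 / 4) (by positivity)
  obtain ⟨ε₀, hε₀⟩ : ∃ ε₀ : ℝ, ε₀ = min (min (A.δ / 4) (τ / (4 * A.C))) (min (r / (8 * P)) (min (ε₁ / S) (1 / (B' * S)))) := ⟨_, rfl⟩
  have he0 : 0 < ε₀ := by
    rw [hε₀]
    exact lt_min (lt_min (by positivity) (by positivity)) (lt_min (by positivity) (lt_min (by positivity) (by positivity)))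
  refine ⟨ε₀, he0, fun ε hε hεε => ?_⟩
  have hε1 : ε ≤ A.δ / 4 := hεε.trans (by rw [hε₀]; exact (min_le_left _ _).trans (min_le_left _ _))
  have hε2 : A.C * ε ≤ τ / 4 := by
    have h1 : ε ≤ τ / (4 * A.C) := hεε.trans (by rw [hε₀]; exact (min_le_left _ _).trans (min_le_right _ _))
    rw [le_div_iff₀ (by positivity)] at h1
    linarith
  have hε3 : P * ε ≤ r / 8 := by
    have h1 : ε ≤ r / (8 * P) := hεε.trans (by rw [hε₀]; exact (min_le_right _ _).trans (min_le_left _ _))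
    rw [le_div_iff₀ (by positivity)] at h1
    linarith
  have hε4 : S * ε ≤ ε₁ := by
    have h1 : ε ≤ ε₁ / S := hεε.trans (by rw [hε₀]; exact (min_le_right _ _).trans ((min_le_right _ _).trans (min_le_left _ _)))
    rw [le_div_iff₀ (by positivity)] at h1
    linarith
  have hε5 : B' * (S * ε) ≤ 1 := by
    have h1 : ε ≤ 1 / (B' * S) := hεε.trans (by rw [hε₀]; exact (min_le_right _ _).trans ((min_le_right _ _).trans (min_le_right _ _)))
    rw [le_div_iff₀ (by positivity)] at h1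
    linarith
  -- the function
  obtain ⟨act, hact⟩ : ∃ act : Fin n → ℂ → Prop, act = fun f a => ∃ l ∈ Λ, ‖p f + l - a‖ ≤ r := ⟨_, rfl⟩
  obtain ⟨W, hW⟩ : ∃ W : Fin n → EN N → ℝ, W = fun f x => cW A Ω g q (p f) (ic f) (ec f) (ξc f) x := ⟨_, rfl⟩
  have hW0 : ∀ f x, 0 ≤ W f x := by
    intro f x
    rw [hW]
    exact cW_nonneg _ _ _ _ _ _ _ _ _
  obtain ⟨term, hterm⟩ : ∃ term : Fin n → ℂ → EN N → ℝ, term = fun f a x => if act f a then W f x else 0 := ⟨_, rfl⟩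
  have ht0 : ∀ f a x, 0 ≤ term f a x := by
    intro f a x
    rw [hterm]
    dsimp only
    split_ifs
    · exact hW0 f x
    · exact le_refl 0
  have hne : (Finset.univ : Finset (Fin n)).Nonempty := ⟨⟨0, hn⟩, Finset.mem_univ _⟩
  obtain ⟨ρ, hρ⟩ : ∃ ρ : ℂ → EN N → ℝ, ρ = fun a x => if pd x (g a) < ε then Finset.univ.sup' hne (fun f => term f a x) else 0 := ⟨_, rfl⟩
  have hρin : ∀ a x, pd x (g a) < ε → ρ a x = Finset.univ.sup' hne (fun f => term f a x) := by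
    intro a x h1
    rw [hρ]
    exact if_pos h1
  have hρle : ∀ a x, pd x (g a) < ε → ∀ f, act f a → W f x ≤ ρ a x := by
    intro a x h1 f hf
    rw [hρin a x h1]
    have h2 := Finset.le_sup' (fun f => term f a x) (Finset.mem_univ f)
    refine le_trans (le_of_eq ?_) h2
    rw [hterm]
    exact (if_pos hf).symm
  have hρex : ∀ a x, pd x (g a) < ε → ρ a x = 0 ∨ ∃ f, act f a ∧ ρ a x = W f x := by
    intro a x h1
    obtain ⟨f, -, hf⟩ := Finset.exists_mem_eq_sup' hne (fun f => term f a x)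
    rw [hρin a x h1, hf, hterm]
    dsimp only
    split_ifs with h2
    · exact Or.inr ⟨f, h2, rfl⟩
    · exact Or.inl rfl
  -- an active centre
  have key : ∀ f a, act f a → ∀ x ∈ X, pd x (g a) < ε → ∃ (a' : ℂ) (ξ' : ℂ → ℂ), ‖a' - a‖ ≤ r ∧ (∃ l ∈ Λ, a' = p f + l) ∧
      Cen A g r₁ τ K a' (ic f) (ec f) ξ' ∧ Dom A g τ a' (ic f) (ec f) x ∧ ‖cpsi A (ic f) (ec f) ξ' x - a‖ ≤ P * pd x (g a) ∧
      Dom A g τ (p f) (ic f) (ec f) x ∧ W f x = cW A Ω g q a' (ic f) (ec f) ξ' x ∧ ∀ w ∈ ball a' r₁, ‖cs A g (ic f) (ec f) ξ' x‖ ≤ S * pd x (g w) := by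
    intro f a hf x hx hpd
    rw [hact] at hf
    obtain ⟨l, hl, hla⟩ := hf
    have h1 := (hC f).translate hX hr₁ hgX (hper l hl)
    obtain ⟨h2, h3⟩ := h1.near lc hg hr₁ hK hla (by linarith) hx hpd (by linarith) (by linarith)
    have h4 := ((hC f).dom_per hX hr₁ hgX (hper l hl)).1 h2
    refine ⟨p f + l, fun t => ξc f t + l, hla, ⟨l, hl, rfl⟩, h1, h2, ?_, h4, ?_, fun w hw => ?_⟩
    · refine h3.trans (le_of_eq ?_)
      rw [hP]
      ring
    · rw [hW]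
      exact ((hC f).W_per hX hr₁ hgX Ω q (hper l hl) h4).symm
    · refine (h1.s_le hK hr₁ h2 hw).trans (le_of_eq ?_)
      rw [hS]
      rfl
  have hpd0 : ∀ x y : EN N, 0 ≤ pd x y := fun x y => dist_nonneg
  have hnet' : ∀ a, ∃ f, ∃ l ∈ Λ, ‖p f + l - a‖ ≤ r / 8 := hnet
  -- the comparison of two centres
  have hlose : ∀ a x, x ∈ X → pd x (g a) < ε → ∀ f, act f a → ∀ f₂, (∃ l ∈ Λ, ‖p f₂ + l - a‖ ≤ r / 8) →
      (∀ l ∈ Λ, ‖p f + l - a‖ ≤ r → 3 * r / 4 ≤ ‖p f + l - a‖) → W f x ≤ W f₂ x := by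
    intro a x hx hpd f hf f₂ hf₂ hfar
    obtain ⟨a', ξ', ha', ⟨l, hl, hla'⟩, hcen', hdom', hψ', -, hW', hs'⟩ := key f a hf x hx hpd
    obtain ⟨l₂, hl₂, hla₂⟩ := hf₂
    have h1 := (hC f₂).translate hX hr₁ hgX (hper l₂ hl₂)
    have hla₂' : ‖p f₂ + l₂ - a‖ ≤ r := by linarith
    obtain ⟨h2, h3⟩ := h1.near lc hg hr₁ hK hla₂' (by linarith) hx hpd (by linarith) (by linarith)
    have h4 := ((hC f₂).dom_per hX hr₁ hgX (hper l₂ hl₂)).1 h2
    have hW₂ : W f₂ x = cW A Ω g q (p f₂ + l₂) (ic f₂) (ec f₂) (fun t => ξc f₂ t + l₂) x := by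
      rw [hW]
      exact ((hC f₂).W_per hX hr₁ hgX Ω q (hper l₂ hl₂) h4).symm
    have hσ : P * pd x (g a) ≤ r / 8 := (mul_le_mul_of_nonneg_left hpd.le hP0.le).trans hε3
    have hψ₁ : ‖cpsi A (ic f) (ec f) ξ' x - a‖ ≤ r / 8 := hψ'.trans hσ
    have hψ₂ : ‖cpsi A (ic f₂) (ec f₂) (fun t => ξc f₂ t + l₂) x - a‖ ≤ r / 8 := by
      refine h3.trans (le_trans (le_of_eq ?_) hσ)
      rw [hP]
      ring
    have hfar' := hfar l hl (by rw [← hla']; exact ha')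
    rw [← hla'] at hfar'
    have hball : ∀ (u v : ℂ), ‖u - a‖ ≤ r / 8 → ‖v - a‖ ≤ r → u ∈ ball v (r₁ / 2) := by
      intro u v hu hv
      rw [mem_ball, dist_eq_norm]
      have h5 : u - v = (u - a) - (v - a) := by ring
      have h6 := norm_sub_le (u - a) (v - a)
      rw [h5]
      linarith
    have hV := hcmp g a' (ic f) (ec f) ξ' (p f₂ + l₂) (ic f₂) (ec f₂) (fun t => ξc f₂ t + l₂) hcen' h1 x hdom' h2 (hball _ _ hψ₁ ha')
      (hball _ _ hψ₁ hla₂') (hball _ _ hψ₂ ha') (hball _ _ hψ₂ hla₂') ?_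
    · rw [hW', hW₂]
      refine W_lose hm Ω hq0 hr hV ?_ ?_
      · have h5 : a' - a = (cpsi A (ic f) (ec f) ξ' x - a) - (cpsi A (ic f) (ec f) ξ' x - a') := by ring
        have h6 := norm_sub_le (cpsi A (ic f) (ec f) ξ' x - a) (cpsi A (ic f) (ec f) ξ' x - a')
        rw [← h5] at h6
        linarith
      · have h5 : cpsi A (ic f₂) (ec f₂) (fun t => ξc f₂ t + l₂) x - (p f₂ + l₂) =
            (cpsi A (ic f₂) (ec f₂) (fun t => ξc f₂ t + l₂) x - a) - (p f₂ + l₂ - a) := by ring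
        rw [h5]
        refine (norm_sub_le _ _).trans ?_
        linarith
    · have ha2 : a ∈ ball (p f₂ + l₂) r₁ := by
        rw [mem_ball, dist_eq_norm, norm_sub_rev]
        linarith
      refine (h1.s_le hK hr₁ h2 ha2).trans ?_
      rw [← hS]
      exact (mul_le_mul_of_nonneg_left hpd.le hS0.le).trans hε4
  -- one half of (T2)
  have hT2 : ∀ a₁ a₂, ∀ x ∈ X, ‖a₁ - a₂‖ ≤ r / 2 → pd x (g a₁) < ε → pd x (g a₂) < ε → ρ a₁ x ≤ ρ a₂ x := by
    intro a₁ a₂ x hx h12 hp1 hp2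
    have hρ0 : 0 ≤ ρ a₂ x := by
      rcases hρex a₂ x hp2 with h1 | ⟨f, -, h1⟩
      · rw [h1]
      · rw [h1]
        exact hW0 f x
    rcases hρex a₁ x hp1 with h1 | ⟨f, hf, h1⟩
    · rw [h1]
      exact hρ0
    rw [h1]
    -- the distance of the two points
    obtain ⟨f₂, l₂, hl₂, hf₂⟩ := hnet' a₁
    have hact₂ : act f₂ a₁ := by
      rw [hact]
      exact ⟨l₂, hl₂, by linarith⟩
    have hsmall : ‖a₁ - a₂‖ ≤ r / 4 := by
      obtain ⟨a', ξ', ha', -, hcen', hdom', hψ', -, -, -⟩ := key f₂ a₁ hact₂ x hx hp1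
      have h2 : a₂ ∈ ball a' r₁ := by
        rw [mem_ball, dist_eq_norm]
        have h3 : a₂ - a' = -(a' - a₁) - (a₁ - a₂) := by ring
        have h4 := norm_sub_le (-(a' - a₁)) (a₁ - a₂)
        rw [norm_neg] at h4
        rw [h3]
        linarith
      have h3 := hcen'.psi_le hK hr₁ hdom' h2
      have h4 : K * (A.C * dist (pr x) (pr (g a₂))) = P * pd x (g a₂) := by
        rw [hP]
        unfold pd
        ring
      rw [h4] at h3
      have h5 : P * pd x (g a₂) ≤ r / 8 := (mul_le_mul_of_nonneg_left hp2.le hP0.le).trans hε3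
      have h6 : P * pd x (g a₁) ≤ r / 8 := (mul_le_mul_of_nonneg_left hp1.le hP0.le).trans hε3
      have h7 : a₁ - a₂ = (cpsi A (ic f₂) (ec f₂) ξ' x - a₂) - (cpsi A (ic f₂) (ec f₂) ξ' x - a₁) := by ring
      have h8 := norm_sub_le (cpsi A (ic f₂) (ec f₂) ξ' x - a₂) (cpsi A (ic f₂) (ec f₂) ξ' x - a₁)
      rw [h7]
      linarith
    by_cases hnear : ∃ l ∈ Λ, ‖p f + l - a₁‖ < 3 * r / 4
    · obtain ⟨l, hl, hla⟩ := hnear
      refine hρle a₂ x hp2 f ?_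
      rw [hact]
      refine ⟨l, hl, ?_⟩
      have h2 : p f + l - a₂ = (p f + l - a₁) + (a₁ - a₂) := by ring
      rw [h2]
      refine (norm_add_le _ _).trans ?_
      linarith
    · push Not at hnear
      refine (hlose a₁ x hx hp1 f hf f₂ ⟨l₂, hl₂, hf₂⟩ (fun l hl _ => hnear l hl)).trans (hρle a₂ x hp2 f₂ ?_)
      rw [hact]
      refine ⟨l₂, hl₂, ?_⟩
      have h2 : p f₂ + l₂ - a₂ = (p f₂ + l₂ - a₁) + (a₁ - a₂) := by ring
      rw [h2]
      refine (norm_add_le _ _).trans ?_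
      linarith
  have hWle : ∀ f a, act f a → ∀ x ∈ X, pd x (g a) < ε → ∀ w, ‖w - a‖ ≤ r / 8 → W f x ≤ B' * (S * pd x (g w)) := by
    intro f a hf x hx hpd w hw
    obtain ⟨a', ξ', ha', -, hcen', hdom', -, -, hW', hs'⟩ := key f a hf x hx hpd
    rw [hW']
    refine (W_le hm Ω hB hq0.le (hbd g a' _ _ ξ' hcen' x hdom')).trans ?_
    rw [hB']
    refine mul_le_mul_of_nonneg_left (hs' w ?_) (Real.rpow_nonneg hB.le _)
    rw [mem_ball, dist_eq_norm]
    have h3 : w - a' = (w - a) - (a' - a) := by ring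
    have h4 := norm_sub_le (w - a) (a' - a)
    rw [h3]
    linarith
  refine ⟨ρ, ?_, ?_, ?_, ?_, ?_, ?_, ?_, ?_, ?_, ?_⟩
  · -- nonneg
    intro a x
    by_cases h1 : pd x (g a) < ε
    · rcases hρex a x h1 with h2 | ⟨f, -, h2⟩
      · rw [h2]
      · rw [h2]
        exact hW0 f x
    · rw [hρ]
      dsimp only
      rw [if_neg h1]
  · -- smul
    intro a x hx c' hc'
    have hpd : pd (c' • x) (g a) = pd x (g a) := by
      unfold pd
      rw [Pool.Agent.H62.EF.pr_smul _ hc']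
    rw [hρ]
    dsimp only
    rw [hpd]
    split_ifs with h1
    · congr 1
      funext f
      rw [hterm]
      dsimp only
      split_ifs with h2
      · obtain ⟨a', ξ', -, -, -, -, -, hdom, -, -⟩ := key f a h2 x hx h1
        rw [hW]
        exact cW_smul Ω q hdom.1.2.1 hc'
      · rfl
    · rfl
  · -- per
    intro l hl a x
    have hpd : pd x (g (a + l)) = pd x (g a) := by
      unfold pd
      rw [hper l hl a]
    have hact' : ∀ f, act f (a + l) ↔ act f a := by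
      intro f
      rw [hact]
      constructor
      · rintro ⟨l', hl', h1⟩
        refine ⟨l' - l, sub_mem hl' hl, ?_⟩
        have h2 : p f + (l' - l) - a = p f + l' - (a + l) := by ring
        rw [h2]
        exact h1
      · rintro ⟨l', hl', h1⟩
        refine ⟨l' + l, add_mem hl' hl, ?_⟩
        have h2 : p f + (l' + l) - (a + l) = p f + l' - a := by ring
        rw [h2]
        exact h1
    rw [hρ]
    dsimp only
    rw [hpd]
    split_ifs with h1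
    · congr 1
      funext f
      rw [hterm]
      dsimp only
      by_cases h2 : act f a
      · rw [if_pos h2, if_pos ((hact' f).2 h2)]
      · rw [if_neg h2, if_neg (fun h3 => h2 ((hact' f).1 h3))]
    · rfl
  · -- le_one
    intro a x hx hpd
    rcases hρex a x hpd with h1 | ⟨f, hf, h1⟩
    · rw [h1]
      exact zero_le_one
    · rw [h1]
      have h2 := hWle f a hf x hx hpd a (by rw [sub_self, norm_zero]; positivity)
      refine h2.trans ((mul_le_mul_of_nonneg_left (mul_le_mul_of_nonneg_left hpd.le hS0.le) hB'0.le).trans hε5)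
  · -- foot
    intro a x hx hpd
    obtain ⟨f, l, hl, hf⟩ := hnet' a
    have hfa : act f a := by
      rw [hact]
      exact ⟨l, hl, by linarith⟩
    have h1 := (hC f).translate hX hr₁ hgX (hper l hl)
    obtain ⟨h2, h3⟩ := h1.near lc hg hr₁ hK (by linarith : ‖p f + l - a‖ ≤ r) (by linarith) hx hpd (by linarith) (by linarith)
    have h4 := ((hC f).dom_per hX hr₁ hgX (hper l hl)).1 h2
    have hσ : P * pd x (g a) ≤ r / 8 := (mul_le_mul_of_nonneg_left hpd.le hP0.le).trans hε3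
    have hψ : ‖cpsi A (ic f) (ec f) (fun t => ξc f t + l) x - a‖ ≤ r / 8 := by
      refine h3.trans (le_trans (le_of_eq ?_) hσ)
      rw [hP]
      ring
    refine ⟨cpsi A (ic f) (ec f) (fun t => ξc f t + l) x, hψ, ?_⟩
    have h5 : ‖cpsi A (ic f) (ec f) (fun t => ξc f t + l) x - (p f + l)‖ ≤ 1 := by
      have h6 : cpsi A (ic f) (ec f) (fun t => ξc f t + l) x - (p f + l) =
          (cpsi A (ic f) (ec f) (fun t => ξc f t + l) x - a) - (p f + l - a) := by ring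
      rw [h6]
      refine (norm_sub_le _ _).trans ?_
      linarith
    have h6 : q * ‖cpsi A (ic f) (ec f) (fun t => ξc f t + l) x - (p f + l)‖ ^ 2 ≤ 1 := by
      have h7 := pow_le_pow_left₀ (norm_nonneg _) h5 2
      rw [one_pow] at h7
      calc q * ‖cpsi A (ic f) (ec f) (fun t => ξc f t + l) x - (p f + l)‖ ^ 2 ≤ 1 * 1 := mul_le_mul hq1 h7 (by positivity) (by norm_num)
        _ = 1 := one_mul 1
    have h7 := le_W hm Ω hb (hbd g (p f + l) _ _ _ h1 x h2) h6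
    rw [← hb'] at h7
    have h8 : cW A Ω g q (p f + l) (ic f) (ec f) (fun t => ξc f t + l) x = W f x := by
      rw [hW]
      exact (hC f).W_per hX hr₁ hgX Ω q (hper l hl) h4
    rw [h8] at h7
    have h9 := hρle a x hpd f hfa
    have h10 := h1.le_s hr₁ h2
    have h11 : pd x (g (cpsi A (ic f) (ec f) (fun t => ξc f t + l) x)) ≤ A.C * (b' * ρ a x) := by
      refine h10.trans (mul_le_mul_of_nonneg_left (h7.trans (mul_le_mul_of_nonneg_left h9 hb'0.le)) (by linarith))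
    refine h11.trans ?_
    have h12 : 0 ≤ ρ a x := (hW0 f x).trans h9
    have h13 : 0 ≤ (1 + B' * S + P) * ρ a x := by positivity
    have h14 : (1 + A.C * b' + B' * S + P) * ρ a x = A.C * (b' * ρ a x) + (1 + B' * S + P) * ρ a x := by ring
    rw [h14]
    linarith
  · -- le
    intro a x hx hpd w hw
    have h0 : 0 ≤ pd x (g w) := hpd0 _ _
    have hfin : B' * (S * pd x (g w)) ≤ (1 + A.C * b' + B' * S + P) * pd x (g w) := by
      have h1 : 0 ≤ (1 + A.C * b' + P) * pd x (g w) := by positivity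
      have h2 : (1 + A.C * b' + B' * S + P) * pd x (g w) = B' * (S * pd x (g w)) + (1 + A.C * b' + P) * pd x (g w) := by ring
      rw [h2]
      linarith
    rcases hρex a x hpd with h1 | ⟨f, hf, h1⟩
    · rw [h1]
      exact mul_nonneg (by positivity) h0
    · rw [h1]
      exact (hWle f a hf x hx hpd w hw).trans hfin
  · -- indep
    intro a₁ a₂ x hx h12 hp1 hp2
    exact le_antisymm (hT2 a₁ a₂ x hx h12 hp1 hp2) (hT2 a₂ a₁ x hx (by rw [norm_sub_rev]; exact h12) hp2 hp1)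
  · -- cont
    intro a
    have h1 : ContinuousOn (fun x => Finset.univ.sup' hne (fun f => term f a x)) {x | x ∈ X ∧ pd x (g a) < ε} := by
      refine ContinuousOn.finset_sup'_apply hne fun f _ => ?_
      rw [hterm]
      dsimp only
      by_cases hf : act f a
      · simp only [if_pos hf]
        rintro x ⟨hx, hpd⟩
        obtain ⟨a', ξ', -, -, -, -, -, hdom, -, -⟩ := key f a hf x hx hpd
        rw [hW]
        exact ((hC f).cont_W Ω q hdom).continuousWithinAt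
      · simp only [if_neg hf]
        exact continuousOn_const
    refine h1.congr fun x hx => ?_
    exact hρin a x hx.2
  · -- sub
    intro a F z₀ hF hpd hpos
    have hx : F z₀ ∈ X := hF.2.self_of_nhds
    rcases hρex a (F z₀) hpd with h1 | ⟨f, hf, h1⟩
    · rw [h1] at hpos
      exact absurd hpos (lt_irrefl _)
    obtain ⟨a', ξ', -, -, -, -, -, hdom, -, -⟩ := key f a hf (F z₀) hx hpd
    have hV : 0 < cV A Ω g (ic f) (ec f) (ξc f) (F z₀) := by
      rcases (cV_nonneg A Ω g (ic f) (ec f) (ξc f) (F z₀)).eq_or_lt with h2 | h2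
      · exfalso
        rw [h1, hW] at hpos
        unfold cW at hpos
        dsimp only at hpos
        rw [← h2, Real.zero_rpow (by positivity), zero_mul] at hpos
        exact lt_irrefl _ hpos
      · exact h2
    have h3 := hsub g r₁ τ (p f) (ic f) (ec f) (ξc f) (hC f) q hq0.le hqq F z₀ hF hdom hV
    refine h3.mono ?_ ?_
    · rw [h1, hW]
    · have h4 : ContinuousAt (fun z => pr (F z)) z₀ := (Pool.Agent.H62.EF.continuousAt_pr (hX.ne_zero hx)).comp (f := F) hF.1.continuousAt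
      have h5 : ∀ᶠ z in 𝓝 z₀, pd (F z) (g a) < ε := by
        have h6 : ContinuousAt (fun z => dist (pr (F z)) (pr (g a))) z₀ := h4.dist continuousAt_const
        exact h6.eventually_lt_const hpd
      filter_upwards [h5] with z hz
      have h6 := hρle a (F z) hz f hf
      rw [hW] at h6
      exact h6
  · -- inj
    intro a₁ a₂ h12
    obtain ⟨i, e, ξ, h⟩ := hcen g hg a₁
    have h2 : a₁ ∈ ball a₁ r₁ := mem_ball_self hr₁
    have h3 : a₂ ∈ ball a₁ r₁ := by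
      rw [mem_ball, dist_eq_norm, norm_sub_rev]
      linarith
    have h4 := h.inj a₁ h2 a₂ h3
    have h5 : ‖qc A i g a₁ e - qc A i g a₂ e‖ ≤ A.C * pd (g a₁) (g a₂) := by
      have h6 : ‖(qc A i g a₁ - qc A i g a₂) e‖ ≤ ‖qc A i g a₁ - qc A i g a₂‖ := norm_le_pi_norm _ e
      rw [Pi.sub_apply] at h6
      exact h6.trans (A.le_dist i _ _ (h.good a₁ (ball_subset_ball (by linarith) h2)) (h.good a₂ (ball_subset_ball (by linarith) h3)))
    have h0 : 0 ≤ pd (g a₁) (g a₂) := hpd0 _ _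
    have h7 : ‖a₁ - a₂‖ ≤ P * pd (g a₁) (g a₂) := by
      refine h4.trans ((mul_le_mul_of_nonneg_left h5 (by linarith)).trans (le_of_eq ?_))
      rw [hP]
      ring
    refine h7.trans ?_
    have h8 : 0 ≤ (1 + A.C * b' + B' * S) * pd (g a₁) (g a₂) := by positivity
    have h9 : (1 + A.C * b' + B' * S + P) * pd (g a₁) (g a₂) = P * pd (g a₁) (g a₂) + (1 + A.C * b' + B' * S) * pd (g a₁) (g a₂) := by ring
    rw [h9]
    linarith

end Pool.Agent.AD.TB
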