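import Pool.Agent.AD.BD.Mat

/-!
# AD TB Cen: the coordinates near a point of the curve

`Cen A g r₁ τ K a i e ξ`: `i` is a chart which is good near `g a`, the coordinate `e` of `g` in this chart is injective on `ball a r₁`, with inverse `ξ`.
`cpsi`: the parameter of the point of the curve which has the same coordinate `e` as `x`; `cs`: the difference; `cD`: the tangent vector of the curve.
-/

set_option autoImplicit false

open Topology Filter Metric

namespace Pool.Agent.AD.TB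

open Pool.Agent.H36.BP (EN fs wd)
open Pool.Agent.H14.PP (IsCone CurveAt Tan)
open Pool.Agent.H62.EF (MN pr)
open Pool.Agent.H5.BD (BC evp exists_inv)
open Pool.Agent.AD.BD

variable {N d : ℕ} {X : Set (EN N)}

/-- coordinates near the point `g a` of the curve `g` -/
structure Cen {X : Set (EN N)} (A : Atlas d X) (g : ℂ → EN N) (r₁ τ K : ℝ) (a : ℂ) (i : Fin A.n) (e : Fin d) (ξ : ℂ → ℂ) : Prop where
  gd : ∀ x ∈ X, dist (pr (g a)) (pr x) ≤ A.δ → Good (A.χ i) x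
  good : ∀ w ∈ ball a (2 * r₁), Good (A.χ i) (g w)
  lip : ∀ w ∈ ball a r₁, ∀ w' ∈ ball a r₁, ‖qc A i g w - qc A i g w'‖ ≤ K * ‖w - w'‖
  dlip : ∀ w ∈ ball a r₁, ∀ w' ∈ ball a r₁, ‖deriv (qc A i g) w - deriv (qc A i g) w'‖ ≤ K * ‖w - w'‖
  inj : ∀ w ∈ ball a r₁, ∀ w' ∈ ball a r₁, ‖w - w'‖ ≤ K * ‖qc A i g w e - qc A i g w' e‖
  der : ∀ w ∈ ball a r₁, 1 ≤ K * ‖deriv (qc A i g) w e‖
  der_le : ∀ w ∈ ball a r₁, ‖deriv (qc A i g) w‖ ≤ K
  an : ∀ w ∈ ball a r₁, AnalyticAt ℂ (qc A i g) w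
  hol : DifferentiableOn ℂ ξ (ball (qc A i g a e) τ)
  mem : ∀ t ∈ ball (qc A i g a e) τ, ξ t ∈ ball a r₁
  eq : ∀ t ∈ ball (qc A i g a e) τ, qc A i g (ξ t) e = t

private theorem exists_max (p : Vd d) (hp : 0 < ‖p‖) : ∃ e, ‖p e‖ = ‖p‖ := by
  by_contra hcon
  push Not at hcon
  have h1 : ∀ e, ‖p e‖ < ‖p‖ := fun e => lt_of_le_of_ne (norm_le_pi_norm p e) (hcon e)
  exact lt_irrefl _ ((pi_norm_lt_iff hp).2 h1)

theorem exists_cen {A : Atlas d X} {c L r₀ c₁ K₀ : ℝ} (H : LC A c L r₀ c₁ K₀) :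
    ∃ r₁ τ K : ℝ, 0 < r₁ ∧ 0 < τ ∧ 1 ≤ K ∧ ∀ g ∈ BC X c L, ∀ a, ∃ i e ξ, Cen A g r₁ τ K a i e ξ := by
  have hr₀ := H.r₀_pos
  have hc₁ := H.c₁_pos
  have hK₀ : 0 < K₀ := lt_of_lt_of_le one_pos H.one_le
  obtain ⟨r₁, hr₁⟩ : ∃ r₁, r₁ = min (r₀ / 2) (c₁ / (4 * K₀)) := ⟨_, rfl⟩
  have hr₁0 : 0 < r₁ := by
    rw [hr₁]
    exact lt_min (by positivity) (by positivity)
  have hr₁1 : 2 * r₁ ≤ r₀ := by
    have := min_le_left (r₀ / 2) (c₁ / (4 * K₀))
    rw [← hr₁] at this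
    linarith
  have hr₁2 : K₀ * r₁ ≤ c₁ / 4 := by
    have h1 := min_le_right (r₀ / 2) (c₁ / (4 * K₀))
    rw [← hr₁, le_div_iff₀ (by positivity)] at h1
    linarith
  have h2c : 0 < 2 / c₁ := by positivity
  refine ⟨r₁, c₁ * r₁ / 4, K₀ + 2 / c₁, hr₁0, by positivity, by linarith [H.one_le], fun g hg a => ?_⟩
  obtain ⟨i, hi⟩ : ∃ i, i = A.idx (pr (g a)) := ⟨_, rfl⟩
  have hga := hg.2.1 a
  have hgood : ∀ w ∈ ball a r₀, Good (A.χ i) (g w) := by
    rw [hi]
    exact H.good g hg (g a) hga a (by rw [dist_self]; have := A.δ_pos; linarith)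
  have hsub : ball a r₁ ⊆ ball a r₀ := ball_subset_ball (by linarith)
  have ha : a ∈ ball a r₁ := mem_ball_self hr₁0
  have hd : ∀ w ∈ ball a r₀, AnalyticAt ℂ (qc A i g) w := fun w hw => H.an g hg i w (hgood w hw)
  obtain ⟨e, he⟩ := exists_max (deriv (qc A i g) a) (lt_of_lt_of_le hc₁ (H.der_ge g hg i a (hgood a (hsub ha))))
  have hcomp : ∀ w ∈ ball a r₀, HasDerivAt (fun w => qc A i g w e) (deriv (qc A i g) w e) w := fun w hw =>
    hasDerivAt_pi.1 (hd w hw).differentiableAt.hasDerivAt e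
  have hlip : ∀ w ∈ ball a r₁, ∀ w' ∈ ball a r₁, ‖deriv (qc A i g) w - deriv (qc A i g) w'‖ ≤ K₀ * ‖w - w'‖ := by
    intro w hw w' hw'
    exact H.der_lip g hg i a hgood w (ball_subset_ball (by linarith) hw) w' (ball_subset_ball (by linarith) hw')
  have hclose : ∀ w ∈ ball a r₁, ‖deriv (fun w => qc A i g w e) w - deriv (fun w => qc A i g w e) a‖ ≤ c₁ / 4 := by
    intro w hw
    rw [(hcomp w (hsub hw)).deriv, (hcomp a (hsub ha)).deriv]
    have h1 : ‖(deriv (qc A i g) w - deriv (qc A i g) a) e‖ ≤ ‖deriv (qc A i g) w - deriv (qc A i g) a‖ := norm_le_pi_norm _ e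
    rw [Pi.sub_apply] at h1
    refine h1.trans ((hlip w hw a ha).trans (le_trans ?_ hr₁2))
    rw [mem_ball, dist_eq_norm] at hw
    exact mul_le_mul_of_nonneg_left hw.le hK₀.le
  have h0 : c₁ ≤ ‖deriv (fun w => qc A i g w e) a‖ := by
    rw [(hcomp a (hsub ha)).deriv, he]
    exact H.der_ge g hg i a (hgood a (hsub ha))
  obtain ⟨hinj, ξ, hξ, hξ'⟩ := exists_inv (u := fun w => qc A i g w e) (w₀ := a) (r := r₁) (a := c₁) hr₁0 hc₁
    (fun w hw => (hcomp w (hsub hw)).differentiableAt.differentiableWithinAt) h0 hclose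
  refine ⟨i, e, ξ, ?_, fun w hw => hgood w (ball_subset_ball (by linarith) hw), ?_, ?_, ?_, ?_, ?_, fun w hw => hd w (hsub hw), hξ,
    fun t ht => (hξ' t ht).1, fun t ht => (hξ' t ht).2⟩
  · intro x hx hdx
    rw [hi]
    exact A.good (g a) hga x hx hdx
  · intro w hw w' hw'
    refine ((convex_ball a r₁).norm_image_sub_le_of_norm_deriv_le (𝕜 := ℂ) (C := K₀) (fun z hz => (hd z (hsub hz)).differentiableAt)
      (fun z hz => H.der_le g hg i z (hgood z (hsub hz))) hw' hw).trans ?_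
    exact mul_le_mul_of_nonneg_right (by linarith) (norm_nonneg _)
  · intro w hw w' hw'
    refine (hlip w hw w' hw').trans (mul_le_mul_of_nonneg_right (by linarith) (norm_nonneg _))
  · intro w hw w' hw'
    have h1 := hinj w hw w' hw'
    have h2 : ‖w - w'‖ ≤ 2 / c₁ * ‖qc A i g w e - qc A i g w' e‖ := by
      rw [div_mul_eq_mul_div, le_div_iff₀ hc₁]
      linarith
    exact h2.trans (mul_le_mul_of_nonneg_right (by linarith) (norm_nonneg _))
  · intro w hw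
    have h1 := hclose w hw
    rw [(hcomp w (hsub hw)).deriv] at h1
    have h2 := norm_sub_norm_le (deriv (fun w => qc A i g w e) a) (deriv (qc A i g) w e)
    rw [norm_sub_rev] at h2
    have h3 : c₁ / 2 ≤ ‖deriv (qc A i g) w e‖ := by linarith
    have h4 : 1 ≤ 2 / c₁ * ‖deriv (qc A i g) w e‖ := by
      rw [div_mul_eq_mul_div, le_div_iff₀ hc₁]
      linarith
    exact h4.trans (mul_le_mul_of_nonneg_right (by linarith) (norm_nonneg _))
  · intro w hw
    exact (H.der_le g hg i w (hgood w (hsub hw))).trans (by linarith)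

/-- two lifts of the same point have the same coordinates -/
theorem good_of_pr (hX : IsCone X) (χ : Chart d X) {x y : EN N} (hy : y ∈ X) (hxy : pr x = pr y) (hx : Good χ x) : Good χ y ∧ χ.q y = χ.q x := by
  obtain ⟨b, hb, hb'⟩ := (Pool.Agent.H62.EF.pr_eq_iff (hX.ne_zero hy) (hX.ne_zero hx.1)).1 hxy.symm
  have hq : χ.q y = χ.q x := by rw [hb', χ.q_smul x hx.2.1 b hb]
  refine ⟨⟨hy, ?_, ?_⟩, hq⟩
  · rw [hb']
    exact χ.smul_U x hx.2.1 b hb
  · rw [hq]
    exact hx.2.2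

theorem Cen.translate (hX : IsCone X) {A : Atlas d X} {g : ℂ → EN N} {r₁ τ K : ℝ} {a : ℂ} {i : Fin A.n} {e : Fin d} {ξ : ℂ → ℂ} (hr₁ : 0 < r₁)
    (hgX : ∀ z, g z ∈ X) (h : Cen A g r₁ τ K a i e ξ) {l : ℂ} (hl : ∀ z, pr (g (z + l)) = pr (g z)) :
    Cen A g r₁ τ K (a + l) i e (fun t => ξ t + l) := by
  have hmem : ∀ {r : ℝ} {w : ℂ}, w ∈ ball (a + l) r → w - l ∈ ball a r := by
    intro r w hw
    rw [mem_ball, dist_eq_norm] at hw ⊢
    rwa [sub_sub, add_comm l a]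
  have hG : ∀ w, w - l ∈ ball a (2 * r₁) → Good (A.χ i) (g w) ∧ qc A i g w = qc A i g (w - l) := by
    intro w hw
    have h1 : pr (g (w - l)) = pr (g w) := by
      have := hl (w - l)
      rw [sub_add_cancel] at this
      exact this.symm
    exact good_of_pr hX (A.χ i) (hgX w) h1 (h.good _ hw)
  have hsub : ball a r₁ ⊆ ball a (2 * r₁) := ball_subset_ball (by linarith)
  have hev : ∀ w, w - l ∈ ball a r₁ → (fun w => qc A i g w) =ᶠ[𝓝 w] fun w => qc A i g (w - l) := by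
    intro w hw
    have h1 : ∀ᶠ y in 𝓝 w, y - l ∈ ball a r₁ := (continuous_sub_right l).continuousAt.eventually_mem (isOpen_ball.mem_nhds hw)
    filter_upwards [h1] with y hy
    exact (hG y (hsub hy)).2
  have hder : ∀ w, w - l ∈ ball a r₁ → deriv (qc A i g) w = deriv (qc A i g) (w - l) := by
    intro w hw
    have h1 := (hev w hw).deriv_eq
    have h2 : deriv (fun w => qc A i g (w - l)) w = deriv (qc A i g) (w - l) := deriv_comp_sub_const (qc A i g) l w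
    rw [← h2, ← h1]
  have ha : qc A i g (a + l) = qc A i g a := by
    have h1 := (hG (a + l) (by rw [add_sub_cancel_right]; exact mem_ball_self (by linarith))).2
    rwa [add_sub_cancel_right] at h1
  refine ⟨?_, ?_, ?_, ?_, ?_, ?_, ?_, ?_, ?_, ?_, ?_⟩
  · intro x hx hd
    rw [hl a] at hd
    exact h.gd x hx hd
  · intro w hw
    exact (hG w (hmem hw)).1
  · intro w hw w' hw'
    rw [(hG w (hsub (hmem hw))).2, (hG w' (hsub (hmem hw'))).2]
    have := h.lip _ (hmem hw) _ (hmem hw')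
    rwa [sub_sub_sub_cancel_right] at this
  · intro w hw w' hw'
    rw [hder w (hmem hw), hder w' (hmem hw')]
    have := h.dlip _ (hmem hw) _ (hmem hw')
    rwa [sub_sub_sub_cancel_right] at this
  · intro w hw w' hw'
    rw [(hG w (hsub (hmem hw))).2, (hG w' (hsub (hmem hw'))).2]
    have := h.inj _ (hmem hw) _ (hmem hw')
    rwa [sub_sub_sub_cancel_right] at this
  · intro w hw
    rw [hder w (hmem hw)]
    exact h.der _ (hmem hw)
  · intro w hw
    rw [hder w (hmem hw)]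
    exact h.der_le _ (hmem hw)
  · intro w hw
    have h1 : AnalyticAt ℂ (fun w => qc A i g (w - l)) w := by
      have h2 : AnalyticAt ℂ (fun w : ℂ => w - l) w := by fun_prop
      exact AnalyticAt.comp (g := qc A i g) (f := fun w : ℂ => w - l) (h.an _ (hmem hw)) h2
    exact h1.congr (hev w (hmem hw)).symm
  · rw [ha]
    exact h.hol.add_const l
  · intro t ht
    rw [ha] at ht
    have h1 := h.mem t ht
    rw [mem_ball, dist_eq_norm] at h1 ⊢
    rwa [add_sub_add_right_eq_sub]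
  · intro t ht
    rw [ha] at ht
    have h1 := (hG (ξ t + l) (by rw [add_sub_cancel_right]; exact hsub (h.mem t ht))).2
    rw [add_sub_cancel_right] at h1
    rw [h1]
    exact h.eq t ht

/-- the parameter of the point of the curve with the same coordinate `e` as `x` -/
noncomputable def cpsi {X : Set (EN N)} (A : Atlas d X) (i : Fin A.n) (e : Fin d) (ξ : ℂ → ℂ) (x : EN N) : ℂ := ξ ((A.χ i).q x e)

/-- the difference of `x` and this point in the chart -/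
noncomputable def cs {X : Set (EN N)} (A : Atlas d X) (g : ℂ → EN N) (i : Fin A.n) (e : Fin d) (ξ : ℂ → ℂ) (x : EN N) : Vd d :=
  (A.χ i).q x - qc A i g (cpsi A i e ξ x)

/-- the tangent vector of the curve at this point -/
noncomputable def cD {X : Set (EN N)} (A : Atlas d X) (g : ℂ → EN N) (i : Fin A.n) (e : Fin d) (ξ : ℂ → ℂ) (x : EN N) : Vd d :=
  deriv (qc A i g) (cpsi A i e ξ x)

/-- the length of the pair -/
noncomputable def cV {X : Set (EN N)} {m J : ℕ} (A : Atlas d X) (Ω : Fin J → BForm d X m) (g : ℂ → EN N) (i : Fin A.n) (e : Fin d) (ξ : ℂ → ℂ) (x : EN N) : ℝ :=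
  Nn Ω (A.χ i) ((A.χ i).q x) (cs A g i e ξ x) (cD A g i e ξ x)

variable {A : Atlas d X} {g : ℂ → EN N} {r₁ τ K : ℝ} {a : ℂ} {i : Fin A.n} {e : Fin d} {ξ : ℂ → ℂ}

/-- the point `x` is in the domain of the coordinates -/
def Dom {X : Set (EN N)} (A : Atlas d X) (g : ℂ → EN N) (τ : ℝ) (a : ℂ) (i : Fin A.n) (e : Fin d) (x : EN N) : Prop :=
  Good (A.χ i) x ∧ (A.χ i).q x e ∈ ball (qc A i g a e) τ

theorem Cen.dom (h : Cen A g r₁ τ K a i e ξ) (hr₁ : 0 < r₁) {x : EN N} (hx : x ∈ X) (h1 : dist (pr (g a)) (pr x) ≤ A.δ)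
    (h2 : A.C * dist (pr (g a)) (pr x) < τ) : Dom A g τ a i e x := by
  have hg := h.gd x hx h1
  refine ⟨hg, ?_⟩
  rw [mem_ball, dist_eq_norm]
  have h3 := A.le_dist i x (g a) hg (h.good a (mem_ball_self (by linarith)))
  have h4 : ‖((A.χ i).q x - (A.χ i).q (g a)) e‖ ≤ ‖(A.χ i).q x - (A.χ i).q (g a)‖ := norm_le_pi_norm _ e
  rw [Pi.sub_apply] at h4
  rw [dist_comm] at h3
  exact (h4.trans h3).trans_lt h2

theorem Cen.psi_mem (h : Cen A g r₁ τ K a i e ξ) {x : EN N} (hx : Dom A g τ a i e x) : cpsi A i e ξ x ∈ ball a r₁ := h.mem _ hx.2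

theorem Cen.s_e (h : Cen A g r₁ τ K a i e ξ) {x : EN N} (hx : Dom A g τ a i e x) : cs A g i e ξ x e = 0 := by
  unfold cs
  rw [Pi.sub_apply, sub_eq_zero]
  exact (h.eq _ hx.2).symm

theorem Cen.D_e (h : Cen A g r₁ τ K a i e ξ) {x : EN N} (hx : Dom A g τ a i e x) : 1 ≤ K * ‖cD A g i e ξ x e‖ := h.der _ (h.psi_mem hx)

theorem Cen.D_le (h : Cen A g r₁ τ K a i e ξ) {x : EN N} (hx : Dom A g τ a i e x) : ‖cD A g i e ξ x‖ ≤ K := h.der_le _ (h.psi_mem hx)

theorem Cen.psi_le (h : Cen A g r₁ τ K a i e ξ) (hK : 1 ≤ K) (hr₁ : 0 < r₁) {x : EN N} (hx : Dom A g τ a i e x) {w : ℂ} (hw : w ∈ ball a r₁) :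
    ‖cpsi A i e ξ x - w‖ ≤ K * (A.C * dist (pr x) (pr (g w))) := by
  have hgw : Good (A.χ i) (g w) := h.good w (ball_subset_ball (by linarith) hw)
  refine (h.inj _ (h.psi_mem hx) w hw).trans (mul_le_mul_of_nonneg_left ?_ (by linarith))
  have h1 : qc A i g (cpsi A i e ξ x) e = (A.χ i).q x e := h.eq _ hx.2
  rw [h1]
  have h4 : ‖((A.χ i).q x - (A.χ i).q (g w)) e‖ ≤ ‖(A.χ i).q x - (A.χ i).q (g w)‖ := norm_le_pi_norm _ e
  rw [Pi.sub_apply] at h4
  exact h4.trans (A.le_dist i x (g w) hx.1 hgw)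

theorem Cen.s_le (h : Cen A g r₁ τ K a i e ξ) (hK : 1 ≤ K) (hr₁ : 0 < r₁) {x : EN N} (hx : Dom A g τ a i e x) {w : ℂ} (hw : w ∈ ball a r₁) :
    ‖cs A g i e ξ x‖ ≤ (1 + K ^ 2) * A.C * dist (pr x) (pr (g w)) := by
  have hgw : Good (A.χ i) (g w) := h.good w (ball_subset_ball (by linarith) hw)
  have h1 := h.lip w hw _ (h.psi_mem hx)
  rw [norm_sub_rev w] at h1
  have h2 := h.psi_le hK hr₁ hx hw
  have h3 := A.le_dist i x (g w) hx.1 hgw
  have h4 : cs A g i e ξ x = ((A.χ i).q x - (A.χ i).q (g w)) + (qc A i g w - qc A i g (cpsi A i e ξ x)) := by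
    unfold cs qc
    abel
  rw [h4]
  refine (norm_add_le _ _).trans ?_
  have h5 : K * ‖cpsi A i e ξ x - w‖ ≤ K * (K * (A.C * dist (pr x) (pr (g w)))) := mul_le_mul_of_nonneg_left h2 (by linarith)
  have h6 : (1 + K ^ 2) * A.C * dist (pr x) (pr (g w)) = A.C * dist (pr x) (pr (g w)) + K * (K * (A.C * dist (pr x) (pr (g w)))) := by ring
  linarith

theorem Cen.le_s (h : Cen A g r₁ τ K a i e ξ) (hr₁ : 0 < r₁) {x : EN N} (hx : Dom A g τ a i e x) :
    dist (pr x) (pr (g (cpsi A i e ξ x))) ≤ A.C * ‖cs A g i e ξ x‖ :=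
  A.dist_le i x _ hx.1 (h.good _ (ball_subset_ball (by linarith) (h.psi_mem hx)))

end Pool.Agent.AD.TB
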