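import Pool.Agent.AD.TB.Cen
import Pool.Agent.AD.BD.NnB

/-!
# AD TB Cmp: comparison of two centres

If `x` is near the curve then the lengths `cV` for two centres agree up to a factor near `1`; `cV` is comparable with the `m`-th power of the distance.
-/

set_option autoImplicit false

open Topology Filter Metric

namespace Pool.Agent.AD.TB

open Pool.Agent.H36.BP (EN fs wd)
open Pool.Agent.H14.PP (IsCone CurveAt Tan)
open Pool.Agent.H62.EF (MN pr)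
open Pool.Agent.H5.BD (BC evp)
open Pool.Agent.AD.BD

variable {N d : ℕ} {X : Set (EN N)} {m J : ℕ}

/-- second order Taylor estimate -/
private theorem taylor {p : ℂ → Vd d} {w₀ : ℂ} {ρ M : ℝ} (hp : ∀ u ∈ ball w₀ ρ, DifferentiableAt ℂ p u)
    (hM : ∀ u ∈ ball w₀ ρ, ∀ u' ∈ ball w₀ ρ, ‖deriv p u - deriv p u'‖ ≤ M * ‖u - u'‖) (hM0 : 0 ≤ M) {w w' : ℂ} (hw : w ∈ ball w₀ ρ)
    (hw' : w' ∈ ball w₀ ρ) : ‖p w - p w' - (w - w') • deriv p w'‖ ≤ M * ‖w - w'‖ ^ 2 := by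
  have hconv : Convex ℝ (ball w₀ ρ ∩ closedBall w' ‖w - w'‖) := (convex_ball _ _).inter (convex_closedBall _ _)
  have h1 := hconv.norm_image_sub_le_of_norm_hasDerivWithin_le (𝕜 := ℂ) (f := fun u => p u - u • deriv p w')
    (f' := fun u => deriv p u - (1 : ℂ) • deriv p w') (C := M * ‖w - w'‖) (x := w') (y := w) ?_ ?_ ?_ ?_
  · have h2 : p w - w • deriv p w' - (p w' - w' • deriv p w') = p w - p w' - (w - w') • deriv p w' := by
      rw [sub_smul]; abel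
    rw [h2] at h1
    calc ‖p w - p w' - (w - w') • deriv p w'‖ ≤ M * ‖w - w'‖ * ‖w - w'‖ := h1
      _ = M * ‖w - w'‖ ^ 2 := by ring
  · intro u hu
    exact (((hp u hu.1).hasDerivAt).sub ((hasDerivAt_id u).smul_const (deriv p w'))).hasDerivWithinAt
  · intro u hu
    rw [one_smul]
    refine (hM u hu.1 w' hw').trans (mul_le_mul_of_nonneg_left ?_ hM0)
    have h3 := hu.2
    rwa [mem_closedBall, dist_eq_norm] at h3
  · exact ⟨hw', mem_closedBall_self (norm_nonneg _)⟩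
  · refine ⟨hw, ?_⟩
    rw [mem_closedBall, dist_eq_norm]

private theorem exists_min' {n : ℕ} (f : Fin n → ℝ) (hf : ∀ i, 0 < f i) : ∃ t : ℝ, 0 < t ∧ ∀ i, t ≤ f i := by
  rcases isEmpty_or_nonempty (Fin n) with h0 | h0
  · exact ⟨1, one_pos, fun i => (h0.false i).elim⟩
  · obtain ⟨i₀, hi₀⟩ := Finite.exists_min f
    exact ⟨f i₀, hf i₀, hi₀⟩

theorem cV_nonneg (A : Atlas d X) (Ω : Fin J → BForm d X m) (g : ℂ → EN N) (i : Fin A.n) (e : Fin d) (ξ : ℂ → ℂ) (x : EN N) : 0 ≤ cV A Ω g i e ξ x :=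
  Nn_nonneg _ _ _ _ _

theorem dom_ball {A : Atlas d X} {g : ℂ → EN N} {τ : ℝ} {a : ℂ} {i : Fin A.n} {e : Fin d} {x : EN N} (hx : Dom A g τ a i e x) :
    (A.χ i).q x ∈ ball (0 : Vd d) 2 := by
  rw [mem_ball_zero_iff]
  exact hx.1.2.2.trans_lt (by norm_num)

theorem cV_bounds (hX : IsCone X) (hm : 1 ≤ m) (A : Atlas d X) (Ω : Fin J → BForm d X m) (hΩ : NoZero Ω) (r₁ τ : ℝ) {K : ℝ} :
    ∃ b B : ℝ, 0 < b ∧ 0 < B ∧ ∀ (g : ℂ → EN N) (a : ℂ) (i : Fin A.n) (e : Fin d) (ξ : ℂ → ℂ), Cen A g r₁ τ K a i e ξ → ∀ x, Dom A g τ a i e x →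
      b * ‖cs A g i e ξ x‖ ^ m ≤ cV A Ω g i e ξ x ∧ cV A Ω g i e ξ x ≤ B * ‖cs A g i e ξ x‖ ^ m := by
  choose δ₀ b₀ hδ₀ hb₀ hcmp using fun i : Fin A.n => Nn_cmp hX hm Ω hΩ (A.χ i) (K' := K) one_pos
  obtain ⟨b, hb, hbi⟩ := exists_min' b₀ hb₀
  choose B₀ hB₀ hB using fun i : Fin A.n => Nn_bdd Ω (A.χ i) (max 1 K)
  refine ⟨b, 1 + ∑ i, B₀ i, hb, by have := Finset.sum_nonneg fun i (_ : i ∈ Finset.univ) => hB₀ i; linarith, fun g a i e ξ h x hx => ⟨?_, ?_⟩⟩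
  · obtain ⟨-, -, h3⟩ := hcmp i e ((A.χ i).q x) (cs A g i e ξ x) (cD A g i e ξ x) 0 hx.1.2.2 (h.s_e hx) (h.D_e hx) (h.D_le hx)
      (by rw [norm_zero]; exact mul_nonneg (hδ₀ i).le (norm_nonneg _))
    exact (mul_le_mul_of_nonneg_right (hbi i) (by positivity)).trans h3
  · have hle : B₀ i ≤ 1 + ∑ i, B₀ i := by
      have := Finset.single_le_sum (f := fun i => B₀ i) (fun i _ => hB₀ i) (Finset.mem_univ i)
      linarith
    have hpb := dom_ball hx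
    rcases eq_or_ne (cs A g i e ξ x) 0 with h0 | h0
    · unfold cV
      rw [h0]
      have h3 := Nn_smul hX Ω (A.χ i) hpb (0 : Vd d) (cD A g i e ξ x) 0
      rw [zero_smul, norm_zero, zero_pow (by omega), zero_mul] at h3
      rw [h3, norm_zero, zero_pow (by omega), mul_zero]
    · have hn : 0 < ‖cs A g i e ξ x‖ := norm_pos_iff.2 h0
      have hnC : ((‖cs A g i e ξ x‖ : ℝ) : ℂ) ≠ 0 := by exact_mod_cast hn.ne'
      obtain ⟨u₁, hu₁⟩ : ∃ u₁ : Vd d, u₁ = ((‖cs A g i e ξ x‖ : ℝ) : ℂ)⁻¹ • cs A g i e ξ x := ⟨_, rfl⟩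
      have hu : cs A g i e ξ x = ((‖cs A g i e ξ x‖ : ℝ) : ℂ) • u₁ := by rw [hu₁, smul_smul, mul_inv_cancel₀ hnC, one_smul]
      have hnn : ‖(((‖cs A g i e ξ x‖ : ℝ) : ℂ)⁻¹)‖ = ‖cs A g i e ξ x‖⁻¹ := by rw [norm_inv, Complex.norm_real, norm_norm]
      have hu₁n : ‖u₁‖ = 1 := by rw [hu₁, norm_smul, hnn, inv_mul_cancel₀ hn.ne']
      have h1 := hB i ((A.χ i).q x) u₁ (cD A g i e ξ x) hx.1.2.2 (by rw [hu₁n]; exact le_max_left _ _) ((h.D_le hx).trans (le_max_right _ _))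
      have h2 : cV A Ω g i e ξ x = ‖cs A g i e ξ x‖ ^ m * Nn Ω (A.χ i) ((A.χ i).q x) u₁ (cD A g i e ξ x) := by
        have h3 := Nn_smul hX Ω (A.χ i) hpb u₁ (cD A g i e ξ x) ((‖cs A g i e ξ x‖ : ℝ) : ℂ)
        rw [← hu, Complex.norm_real, norm_norm] at h3
        exact h3
      rw [h2, mul_comm]
      exact mul_le_mul_of_nonneg_right (h1.trans hle) (by positivity)

/-- the comparison of two centres -/
theorem cen_cmp (hX : IsCone X) (hm : 1 ≤ m) (A : Atlas d X) (Ω : Fin J → BForm d X m) (hΩ : NoZero Ω) {r₁ τ K : ℝ} (hr₁ : 0 < r₁) (hK : 1 ≤ K) {η : ℝ}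
    (hη : 0 < η) : ∃ ε₁ : ℝ, 0 < ε₁ ∧ ∀ (g : ℂ → EN N) (a : ℂ) (i : Fin A.n) (e : Fin d) (ξ : ℂ → ℂ) (b : ℂ) (j : Fin A.n) (e' : Fin d) (ξ' : ℂ → ℂ),
      Cen A g r₁ τ K a i e ξ → Cen A g r₁ τ K b j e' ξ' → ∀ x, Dom A g τ a i e x → Dom A g τ b j e' x →
      cpsi A i e ξ x ∈ ball a (r₁ / 2) → cpsi A i e ξ x ∈ ball b (r₁ / 2) → cpsi A j e' ξ' x ∈ ball a (r₁ / 2) →
      cpsi A j e' ξ' x ∈ ball b (r₁ / 2) → ‖cs A g j e' ξ' x‖ ≤ ε₁ → cV A Ω g i e ξ x ≤ Real.exp η * cV A Ω g j e' ξ' x := by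
  have hC : 1 ≤ A.C := A.one_le
  choose δ₀ b₀ hδ₀ hb₀ hcmp using fun i : Fin A.n => Nn_cmp2 hX hm Ω hΩ (A.χ i) (K' := K) hη
  obtain ⟨δ, hδ, hδi⟩ := exists_min' δ₀ hδ₀
  obtain ⟨M, hM⟩ : ∃ M : ℝ, M = (1 + K ^ 2) * A.C * A.C := ⟨_, rfl⟩
  obtain ⟨P, hP⟩ : ∃ P : ℝ, P = K * (A.C * A.C) := ⟨_, rfl⟩
  obtain ⟨M₁, hM₁⟩ : ∃ M₁ : ℝ, M₁ = K + A.C * K + A.C * (M ^ 2 + (M + K) ^ 2) := ⟨_, rfl⟩
  obtain ⟨M₃, hM₃⟩ : ∃ M₃ : ℝ, M₃ = M₁ + K * P := ⟨_, rfl⟩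
  obtain ⟨M₂, hM₂⟩ : ∃ M₂ : ℝ, M₂ = A.C * M ^ 2 + K * P ^ 2 + P * M₃ := ⟨_, rfl⟩
  have hM0 : 0 < M := by rw [hM]; positivity
  have hP0 : 0 < P := by rw [hP]; positivity
  have hM₁0 : 0 < M₁ := by rw [hM₁]; positivity
  have hM₃0 : 0 < M₃ := by rw [hM₃]; positivity
  have hM₂0 : 0 < M₂ := by rw [hM₂]; positivity
  refine ⟨min (r₁ / 4) (δ / (M₂ + M₃)), lt_min (by positivity) (by positivity), ?_⟩
  intro g a i e ξ b j e' ξ' ha hb x hxa hxb hψa hψab hψba hψb ht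
  obtain ⟨t, ht0⟩ : ∃ t : ℝ, t = ‖cs A g j e' ξ' x‖ := ⟨_, rfl⟩
  rw [← ht0] at ht
  have htn : 0 ≤ t := by rw [ht0]; exact norm_nonneg _
  have ht1 : t ≤ r₁ / 4 := ht.trans (min_le_left _ _)
  have ht2 : t ≤ δ / (M₂ + M₃) := ht.trans (min_le_right _ _)
  have ht3 : (M₂ + M₃) * t ≤ δ := by
    rw [le_div_iff₀ (by positivity)] at ht2
    linarith
  have hsub : ∀ z : ℂ, ball z (r₁ / 2) ⊆ ball z r₁ := fun z => ball_subset_ball (by linarith)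
  have hdist : dist (pr x) (pr (g (cpsi A j e' ξ' x))) ≤ A.C * t := by
    rw [ht0]
    exact hb.le_s hr₁ hxb
  have hsa : ‖cs A g i e ξ x‖ ≤ M * t := by
    refine (ha.s_le hK hr₁ hxa (hsub _ hψba)).trans ?_
    have h1 : (1 + K ^ 2) * A.C * dist (pr x) (pr (g (cpsi A j e' ξ' x))) ≤ (1 + K ^ 2) * A.C * (A.C * t) :=
      mul_le_mul_of_nonneg_left hdist (by positivity)
    refine h1.trans (le_of_eq ?_)
    rw [hM]
    ring
  have hψ : ‖cpsi A i e ξ x - cpsi A j e' ξ' x‖ ≤ P * t := by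
    refine (ha.psi_le hK hr₁ hxa (hsub _ hψba)).trans ?_
    have h1 : K * (A.C * dist (pr x) (pr (g (cpsi A j e' ξ' x)))) ≤ K * (A.C * (A.C * t)) := by
      refine mul_le_mul_of_nonneg_left (mul_le_mul_of_nonneg_left hdist (by linarith)) (by linarith)
    refine h1.trans (le_of_eq ?_)
    rw [hP]
    ring
  have hpbi := dom_ball hxa
  have hpbj := dom_ball hxb
  rcases htn.eq_or_lt with h0 | h0
  · have h1 : cs A g i e ξ x = 0 := by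
      rw [← h0, mul_zero] at hsa
      exact norm_le_zero_iff.1 hsa
    have h2 : cV A Ω g i e ξ x = 0 := by
      unfold cV
      rw [h1]
      have h3 := Nn_smul hX Ω (A.χ i) hpbi (0 : Vd d) (cD A g i e ξ x) 0
      rw [zero_smul, norm_zero, zero_pow (by omega), zero_mul] at h3
      exact h3
    rw [h2]
    exact mul_nonneg (Real.exp_pos _).le (cV_nonneg _ _ _ _ _ _ _)
  -- names
  obtain ⟨T, hT⟩ : ∃ T : Vd d →L[ℂ] Vd d, T = fderiv ℂ (fun p => (A.χ j).q ((A.χ i).σ p)) ((A.χ i).q x) := ⟨_, rfl⟩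
  have hTn : ‖T‖ ≤ A.C := by rw [hT]; exact A.fd_le i j x hxa.1 hxb.1
  obtain ⟨p, hp⟩ : ∃ p : ℂ, p = cpsi A i e ξ x := ⟨_, rfl⟩
  obtain ⟨p', hp'⟩ : ∃ p' : ℂ, p' = cpsi A j e' ξ' x := ⟨_, rfl⟩
  rw [← hp, ← hp'] at hψ
  rw [← hp] at hψa hψab
  rw [← hp'] at hψba hψb
  obtain ⟨sa, hsad⟩ : ∃ sa : Vd d, sa = cs A g i e ξ x := ⟨_, rfl⟩
  obtain ⟨sb, hsbd⟩ : ∃ sb : Vd d, sb = cs A g j e' ξ' x := ⟨_, rfl⟩
  obtain ⟨Da, hDa⟩ : ∃ Da : Vd d, Da = cD A g i e ξ x := ⟨_, rfl⟩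
  obtain ⟨Db, hDb⟩ : ∃ Db : Vd d, Db = cD A g j e' ξ' x := ⟨_, rfl⟩
  rw [← hsad] at hsa
  rw [← hsbd] at ht0
  have hDa' : Da = deriv (qc A i g) p := by rw [hDa, hp]; rfl
  have hDb' : Db = deriv (qc A j g) p' := by rw [hDb, hp']; rfl
  have hsa' : sa = (A.χ i).q x - qc A i g p := by rw [hsad, hp]; rfl
  have hsb' : sb = (A.χ j).q x - qc A j g p' := by rw [hsbd, hp']; rfl
  -- the point `p + t`
  have hpt : ∀ z : ℂ, p ∈ ball z (r₁ / 2) → p + (t : ℂ) ∈ ball z r₁ := by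
    intro z hz
    rw [mem_ball, dist_eq_norm] at hz ⊢
    have h1 : p + (t : ℂ) - z = (p - z) + (t : ℂ) := by ring
    rw [h1]
    have h2 := norm_add_le (p - z) (t : ℂ)
    rw [Complex.norm_real, Real.norm_eq_abs, abs_of_pos h0] at h2
    linarith
  have hsub2 : ∀ z : ℂ, ball z r₁ ⊆ ball z (2 * r₁) := fun z => ball_subset_ball (by linarith)
  have gia := ha.good p (hsub2 _ (hsub _ hψa))
  have gja := hb.good p (hsub2 _ (hsub _ hψab))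
  have gib := ha.good (p + t) (hsub2 _ (hpt _ hψa))
  have gjb := hb.good (p + t) (hsub2 _ (hpt _ hψab))
  have htt : ‖p + (t : ℂ) - p‖ = t := by rw [add_sub_cancel_left, Complex.norm_real, Real.norm_eq_abs, abs_of_pos h0]
  have tay1 : ‖qc A i g (p + t) - qc A i g p - (t : ℂ) • deriv (qc A i g) p‖ ≤ K * t ^ 2 := by
    have h1 := taylor (p := qc A i g) (fun u hu => (ha.an u hu).differentiableAt) ha.dlip (by linarith) (hpt _ hψa) (hsub _ hψa)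
    rw [htt, add_sub_cancel_left] at h1
    exact h1
  have tay2 : ‖qc A j g (p + t) - qc A j g p - (t : ℂ) • deriv (qc A j g) p‖ ≤ K * t ^ 2 := by
    have h1 := taylor (p := qc A j g) (fun u hu => (hb.an u hu).differentiableAt) hb.dlip (by linarith) (hpt _ hψab) (hsub _ hψab)
    rw [htt, add_sub_cancel_left] at h1
    exact h1
  have tay3 : ‖qc A j g p - qc A j g p' - (p - p') • deriv (qc A j g) p'‖ ≤ K * ‖p - p'‖ ^ 2 :=
    taylor (p := qc A j g) (fun u hu => (hb.an u hu).differentiableAt) hb.dlip (by linarith) (hsub _ hψab) (hsub _ hψb)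
  -- change of charts
  have tr1 : ‖qc A j g p - (A.χ j).q x + T sa‖ ≤ A.C * (M * t) ^ 2 := by
    have h1 := A.trans i j x (g p) hxa.1 hxb.1 gia gja
    rw [← hT] at h1
    have h2 : (A.χ i).q (g p) - (A.χ i).q x = -sa := by rw [hsa']; unfold qc; abel
    rw [h2, map_neg, sub_neg_eq_add, norm_neg] at h1
    refine h1.trans (mul_le_mul_of_nonneg_left (pow_le_pow_left₀ (norm_nonneg _) hsa 2) (by linarith))
  have tr2 : ‖qc A j g (p + t) - (A.χ j).q x - T (qc A i g (p + t) - (A.χ i).q x)‖ ≤ A.C * ((M + K) * t) ^ 2 := by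
    have h1 := A.trans i j x (g (p + t)) hxa.1 hxb.1 gib gjb
    rw [← hT] at h1
    refine h1.trans (mul_le_mul_of_nonneg_left (pow_le_pow_left₀ (norm_nonneg _) ?_ 2) (by linarith))
    have h2 : (A.χ i).q (g (p + t)) - (A.χ i).q x = (qc A i g (p + t) - qc A i g p) - sa := by rw [hsa']; unfold qc; abel
    rw [h2]
    refine (norm_sub_le _ _).trans ?_
    have h3 := ha.lip (p + t) (hpt _ hψa) p (hsub _ hψa)
    rw [htt] at h3
    linarith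
  have hE : ‖(t : ℂ) • (deriv (qc A j g) p - T (deriv (qc A i g) p))‖ ≤ M₁ * t ^ 2 := by
    have h1 : (t : ℂ) • (deriv (qc A j g) p - T (deriv (qc A i g) p)) =
        -(qc A j g (p + t) - qc A j g p - (t : ℂ) • deriv (qc A j g) p) +
        T (qc A i g (p + t) - qc A i g p - (t : ℂ) • deriv (qc A i g) p) +
        ((qc A j g (p + t) - (A.χ j).q x - T (qc A i g (p + t) - (A.χ i).q x)) - (qc A j g p - (A.χ j).q x + T sa)) := by
      rw [hsa']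
      simp only [map_sub, map_smul, smul_sub]
      abel
    rw [h1]
    have h2 : ‖T (qc A i g (p + t) - qc A i g p - (t : ℂ) • deriv (qc A i g) p)‖ ≤ A.C * (K * t ^ 2) :=
      (T.le_opNorm _).trans (mul_le_mul hTn tay1 (norm_nonneg _) (by linarith))
    refine (norm_add₃_le).trans ?_
    rw [norm_neg]
    have h3 := norm_sub_le (qc A j g (p + t) - (A.χ j).q x - T (qc A i g (p + t) - (A.χ i).q x)) (qc A j g p - (A.χ j).q x + T sa)
    have h4 : M₁ * t ^ 2 = K * t ^ 2 + A.C * (K * t ^ 2) + (A.C * ((M + K) * t) ^ 2 + A.C * (M * t) ^ 2) := by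
      rw [hM₁]
      ring
    rw [h4]
    linarith
  have hE' : ‖deriv (qc A j g) p - T Da‖ ≤ M₁ * t := by
    rw [norm_smul, Complex.norm_real, Real.norm_eq_abs, abs_of_pos h0] at hE
    rw [hDa']
    have h1 : t * ‖deriv (qc A j g) p - T (deriv (qc A i g) p)‖ ≤ t * (M₁ * t) := by
      calc _ ≤ M₁ * t ^ 2 := hE
        _ = _ := by ring
    exact le_of_mul_le_mul_left h1 h0
  obtain ⟨E₃, hE₃⟩ : ∃ E₃ : Vd d, E₃ = T Da - Db := ⟨_, rfl⟩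
  have hE₃n : ‖E₃‖ ≤ M₃ * t := by
    have h1 : E₃ = -(deriv (qc A j g) p - T Da) + (deriv (qc A j g) p - deriv (qc A j g) p') := by
      rw [hE₃, hDb']
      abel
    rw [h1]
    refine (norm_add_le _ _).trans ?_
    rw [norm_neg]
    have h2 := hb.dlip p (hsub _ hψab) p' (hsub _ hψb)
    have h3 : K * ‖p - p'‖ ≤ K * (P * t) := mul_le_mul_of_nonneg_left hψ (by linarith)
    have h4 : M₃ * t = M₁ * t + K * (P * t) := by rw [hM₃]; ring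
    rw [h4]
    linarith
  obtain ⟨E₁, hE₁⟩ : ∃ E₁ : Vd d, E₁ = qc A j g p - (A.χ j).q x + T sa := ⟨_, rfl⟩
  obtain ⟨E₂, hE₂⟩ : ∃ E₂ : Vd d, E₂ = -(qc A j g p - qc A j g p' - (p - p') • deriv (qc A j g) p') := ⟨_, rfl⟩
  have hE₁n : ‖E₁‖ ≤ A.C * M ^ 2 * t ^ 2 := by
    rw [hE₁]
    refine tr1.trans (le_of_eq ?_)
    ring
  have hE₂n : ‖E₂‖ ≤ K * P ^ 2 * t ^ 2 := by
    rw [hE₂, norm_neg]
    refine tay3.trans ?_
    have h1 := pow_le_pow_left₀ (norm_nonneg _) hψ 2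
    have h2 : K * ‖p - p'‖ ^ 2 ≤ K * (P * t) ^ 2 := mul_le_mul_of_nonneg_left h1 (by linarith)
    refine h2.trans (le_of_eq ?_)
    ring
  have hsum : T sa + (p - p') • T Da = sb + (E₁ + E₂ + (p - p') • E₃) := by
    rw [hE₁, hE₂, hE₃, hsb', hDb', smul_sub]
    abel
  have herr : ‖E₁ + E₂ + (p - p') • E₃‖ ≤ δ * ‖sb‖ := by
    have h1 : ‖(p - p') • E₃‖ ≤ (P * t) * (M₃ * t) := by
      rw [norm_smul]
      exact mul_le_mul hψ hE₃n (norm_nonneg _) (by positivity)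
    rw [← ht0]
    calc ‖E₁ + E₂ + (p - p') • E₃‖ ≤ ‖E₁‖ + ‖E₂‖ + ‖(p - p') • E₃‖ := norm_add₃_le
      _ ≤ A.C * M ^ 2 * t ^ 2 + K * P ^ 2 * t ^ 2 + (P * t) * (M₃ * t) := add_le_add (add_le_add hE₁n hE₂n) h1
      _ = M₂ * t * t := by rw [hM₂]; ring
      _ ≤ δ * t := by
        refine mul_le_mul_of_nonneg_right ?_ htn
        have : 0 ≤ M₃ * t := by positivity
        linarith
  have her2 : ‖E₃‖ ≤ δ := by
    refine hE₃n.trans ?_
    have : 0 ≤ M₂ * t := by positivity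
    linarith
  have hu0 : sb e' = 0 := by rw [hsbd]; exact hb.s_e hxb
  have hDe : 1 ≤ K * ‖Db e'‖ := by rw [hDb]; exact hb.D_e hxb
  have hDl : ‖Db‖ ≤ K := by rw [hDb]; exact hb.D_le hxb
  have hfin := (hcmp j e' ((A.χ j).q x) sb Db (E₁ + E₂ + (p - p') • E₃) E₃ hxb.1.2.2 hu0 hDe hDl
    (herr.trans (mul_le_mul_of_nonneg_right (hδi j) (norm_nonneg _))) (her2.trans (hδi j))).2.1
  have e1 : cV A Ω g i e ξ x = Nn Ω (A.χ j) ((A.χ j).q x) (T sa) (T Da) := by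
    rw [hT, Nn_good hX Ω (A.χ i) (A.χ j) hxa.1 hxb.1, hsad, hDa]
    rfl
  have e2 : T Da = Db + E₃ := by rw [hE₃]; abel
  have e3 : cV A Ω g j e' ξ' x = Nn Ω (A.χ j) ((A.χ j).q x) sb Db := by
    rw [hsbd, hDb]
    rfl
  rw [e1, e3, ← Nn_add_smul hX Ω (A.χ j) hpbj (T sa) (T Da) (p - p'), hsum, e2]
  exact hfin

end Pool.Agent.AD.TB
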