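import Pool.Agent.AD.TB.Cmp
import Pool.Agent.AD.ChartFs
import Pool.Agent.H36.BP.SubA
import Pool.Agent.H36.BP.SubB
import Pool.Agent.H36.BP.SubC

/-!
# AD TB Sub: the function of one centre along a curve

`cW x = cV x ^ (1 / m) * exp (-π₀ ‖ψ x - a‖²)`.  It is continuous, and along a curve `F` its logarithm has lower supports of exponent `fs² / (4 m)`.
-/

set_option autoImplicit false

open Topology Filter Metric

namespace Pool.Agent.AD.TB

open Pool.Agent.H36.BP (EN fs wd Sub fs_inv)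
open Pool.Agent.H14.PP (IsCone CurveAt Tan)
open Pool.Agent.H62.EF (MN pr)
open Pool.Agent.H5.BD (BC evp)
open Pool.Agent.AD.BD

variable {N d : ℕ} {X : Set (EN N)} {m J : ℕ}

/-- the weighted length -/
noncomputable def cW {X : Set (EN N)} {m J : ℕ} (A : Atlas d X) (Ω : Fin J → BForm d X m) (g : ℂ → EN N) (q : ℝ) (a : ℂ) (i : Fin A.n) (e : Fin d)
    (ξ : ℂ → ℂ) (x : EN N) : ℝ :=
  cV A Ω g i e ξ x ^ (1 / (m : ℝ)) * Real.exp (-q * ‖cpsi A i e ξ x - a‖ ^ 2)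

theorem cW_nonneg (A : Atlas d X) (Ω : Fin J → BForm d X m) (g : ℂ → EN N) (q : ℝ) (a : ℂ) (i : Fin A.n) (e : Fin d) (ξ : ℂ → ℂ) (x : EN N) :
    0 ≤ cW A Ω g q a i e ξ x := mul_nonneg (Real.rpow_nonneg (cV_nonneg _ _ _ _ _ _ _) _) (Real.exp_pos _).le

private theorem exists_unit (z : ℂ) : ∃ ζ : ℂ, ‖ζ‖ = 1 ∧ ζ * z = (‖z‖ : ℂ) := by
  rcases eq_or_ne z 0 with h | h
  · exact ⟨1, norm_one, by rw [h]; simp⟩
  · have hn : (‖z‖ : ℂ) ≠ 0 := by exact_mod_cast (norm_pos_iff.2 h).ne'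
    refine ⟨(‖z‖ : ℂ) / z, ?_, div_mul_cancel₀ _ h⟩
    rw [norm_div, Complex.norm_real, norm_norm, div_self (norm_pos_iff.2 h).ne']

variable {A : Atlas d X} {g : ℂ → EN N} {r₁ τ K : ℝ} {a : ℂ} {i : Fin A.n} {e : Fin d} {ξ : ℂ → ℂ}

theorem Cen.xi_an (h : Cen A g r₁ τ K a i e ξ) {t : ℂ} (ht : t ∈ ball (qc A i g a e) τ) : AnalyticAt ℂ ξ t :=
  h.hol.analyticAt (isOpen_ball.mem_nhds ht)

theorem Cen.xi_deriv (h : Cen A g r₁ τ K a i e ξ) (hK : 1 ≤ K) {t : ℂ} (ht : t ∈ ball (qc A i g a e) τ) : ‖deriv ξ t‖ ≤ K := by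
  have h1 := hasDerivAt_pi.1 (h.an (ξ t) (h.mem t ht)).differentiableAt.hasDerivAt e
  have h2 := h1.comp t (h.xi_an ht).differentiableAt.hasDerivAt
  have h3 : HasDerivAt (fun w => qc A i g (ξ w) e) 1 t := by
    refine (hasDerivAt_id t).congr_of_eventuallyEq ?_
    filter_upwards [isOpen_ball.mem_nhds ht] with w hw
    exact h.eq w hw
  have h4 : deriv (qc A i g) (ξ t) e * deriv ξ t = 1 := h2.unique h3
  have h5 := congrArg norm h4
  rw [norm_mul, norm_one] at h5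
  have h6 := h.der (ξ t) (h.mem t ht)
  have h7 : 0 < ‖deriv (qc A i g) (ξ t) e‖ := by
    rcases (norm_nonneg (deriv (qc A i g) (ξ t) e)).eq_or_lt with h8 | h8
    · rw [← h8, mul_zero] at h6
      linarith
    · exact h8
  have h8 : ‖deriv (qc A i g) (ξ t) e‖ * ‖deriv ξ t‖ ≤ ‖deriv (qc A i g) (ξ t) e‖ * K := by
    rw [h5]
    linarith
  exact le_of_mul_le_mul_left h8 h7

/-- the data of one centre in terms of the coordinates of the point -/
theorem Cen.fun_an (h : Cen A g r₁ τ K a i e ξ) {p : Vd d} (hp2 : p e ∈ ball (qc A i g a e) τ) :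
    AnalyticAt ℂ (fun p : Vd d => (p, p - qc A i g (ξ (p e)), deriv (qc A i g) (ξ (p e)))) p := by
  have h1 : AnalyticAt ℂ (fun p : Vd d => p e) p := (ContinuousLinearMap.proj (R := ℂ) (φ := fun _ : Fin d => ℂ) e).analyticAt p
  have h2 : AnalyticAt ℂ (fun p : Vd d => ξ (p e)) p := AnalyticAt.comp (g := ξ) (f := fun p : Vd d => p e) (h.xi_an hp2) h1
  have h3 : AnalyticAt ℂ (fun p : Vd d => qc A i g (ξ (p e))) p :=
    AnalyticAt.comp (g := qc A i g) (f := fun p : Vd d => ξ (p e)) (h.an _ (h.mem _ hp2)) h2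
  have h4 : AnalyticAt ℂ (fun p : Vd d => deriv (qc A i g) (ξ (p e))) p :=
    AnalyticAt.comp (g := deriv (qc A i g)) (f := fun p : Vd d => ξ (p e)) (h.an _ (h.mem _ hp2)).deriv h2
  exact analyticAt_id.prod ((analyticAt_id.sub h3).prod h4)

theorem Cen.cont_psi (h : Cen A g r₁ τ K a i e ξ) {x : EN N} (hx : Dom A g τ a i e x) : ContinuousAt (cpsi A i e ξ) x := by
  have h1 : ContinuousAt (fun x => (A.χ i).q x e) x := (continuous_apply e).continuousAt.comp ((A.χ i).q_an x hx.1.2.1).continuousAt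
  exact ContinuousAt.comp (g := ξ) (f := fun x => (A.χ i).q x e) (h.xi_an hx.2).continuousAt h1

theorem Cen.cont_V (h : Cen A g r₁ τ K a i e ξ) (Ω : Fin J → BForm d X m) {x : EN N} (hx : Dom A g τ a i e x) : ContinuousAt (cV A Ω g i e ξ) x := by
  have h1 : ContinuousAt (A.χ i).q x := ((A.χ i).q_an x hx.1.2.1).continuousAt
  have h2 := (h.fun_an (p := (A.χ i).q x) hx.2).continuousAt
  have h3 : ContinuousAt (fun x => ((A.χ i).q x, (A.χ i).q x - qc A i g (ξ ((A.χ i).q x e)), deriv (qc A i g) (ξ ((A.χ i).q x e)))) x :=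
    ContinuousAt.comp (g := fun p : Vd d => (p, p - qc A i g (ξ (p e)), deriv (qc A i g) (ξ (p e)))) h2 h1
  have h4 := Nn_cont Ω (A.χ i) (dom_ball hx) (cs A g i e ξ x) (cD A g i e ξ x)
  exact ContinuousAt.comp (g := fun y : Vd d × Vd d × Vd d => Nn Ω (A.χ i) y.1 y.2.1 y.2.2)
    (f := fun x => ((A.χ i).q x, (A.χ i).q x - qc A i g (ξ ((A.χ i).q x e)), deriv (qc A i g) (ξ ((A.χ i).q x e)))) h4 h3

theorem Cen.cont_W (h : Cen A g r₁ τ K a i e ξ) (Ω : Fin J → BForm d X m) (q : ℝ) {x : EN N} (hx : Dom A g τ a i e x) :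
    ContinuousAt (cW A Ω g q a i e ξ) x := by
  refine ContinuousAt.mul ((h.cont_V Ω hx).rpow_const (Or.inr (by positivity))) ?_
  exact Real.continuous_exp.continuousAt.comp (continuousAt_const.mul (((h.cont_psi hx).sub continuousAt_const).norm.pow 2))

theorem exists_cen_sub (hX : IsCone X) (hm : 1 ≤ m) (A : Atlas d X) (Ω : Fin J → BForm d X m) {K : ℝ} (hK : 1 ≤ K) :
    ∃ q₀ : ℝ, 0 < q₀ ∧ ∀ (g : ℂ → EN N) (r₁ τ : ℝ) (a : ℂ) (i : Fin A.n) (e : Fin d) (ξ : ℂ → ℂ), Cen A g r₁ τ K a i e ξ → ∀ q : ℝ, 0 ≤ q → q ≤ q₀ →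
      ∀ (F : ℂ → EN N) (z₀ : ℂ), CurveAt X F z₀ → Dom A g τ a i e (F z₀) → 0 < cV A Ω g i e ξ (F z₀) →
        Sub (fun z => cW A Ω g q a i e ξ (F z)) z₀ (1 / (4 * m) * fs (F z₀) (deriv F z₀) ^ 2) := by
  have hm0 : (0 : ℝ) < m := by exact_mod_cast (by omega : 0 < m)
  choose C hC1 hC2 hC3 using fun i : Fin A.n => (A.χ i).exists_fs_bound hX
  obtain ⟨P, hP⟩ : ∃ P : ℝ, P = 1 + ∑ i, C i := ⟨_, rfl⟩
  have hCP : ∀ i, C i ≤ P := by
    intro i
    have h1 := Finset.single_le_sum (f := fun i => C i) (fun i _ => zero_le_one.trans (hC1 i)) (Finset.mem_univ i)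
    rw [hP]
    linarith
  have hP0 : 0 < P := by
    have := Finset.sum_nonneg fun i (_ : i ∈ Finset.univ) => zero_le_one.trans (hC1 i)
    rw [hP]
    linarith
  refine ⟨1 / (4 * m * (K * P) ^ 2), by positivity, ?_⟩
  intro g r₁ τ a i e ξ h q hq hq₀ F z₀ hF hx hV
  obtain ⟨han, hqd, c, hcan, hc0, hev⟩ := Chart.curve hX (A.χ i) hF hx.1.2.1
  obtain ⟨p, hp⟩ : ∃ p : ℂ → Vd d, p = fun z => (A.χ i).q (F z) := ⟨_, rfl⟩
  have han' : AnalyticAt ℂ p z₀ := by rw [hp]; exact han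
  have hp2 : p z₀ ∈ ball (0 : Vd d) 2 := by rw [hp]; exact dom_ball hx
  have hpe : p z₀ e ∈ ball (qc A i g a e) τ := by rw [hp]; exact hx.2
  -- the holomorphic functions
  obtain ⟨hk, hhk⟩ : ∃ hk : Fin J → ℂ → ℂ, hk = fun k z => (Ω k).toFun ((A.χ i).σ (p z)) (fderiv ℂ (A.χ i).σ (p z) (p z - qc A i g (ξ (p z e))))
      (fderiv ℂ (A.χ i).σ (p z) (deriv (qc A i g) (ξ (p z e)))) := ⟨_, rfl⟩
  have hkan : ∀ k, AnalyticAt ℂ (hk k) z₀ := by
    intro k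
    have h1 := Nn_an Ω (A.χ i) hp2 (p z₀ - qc A i g (ξ (p z₀ e))) (deriv (qc A i g) (ξ (p z₀ e))) k
    have h2 : AnalyticAt ℂ (fun z => (p z, p z - qc A i g (ξ (p z e)), deriv (qc A i g) (ξ (p z e)))) z₀ :=
      AnalyticAt.comp (g := fun p : Vd d => (p, p - qc A i g (ξ (p e)), deriv (qc A i g) (ξ (p e)))) (f := p) (h.fun_an hpe) han'
    rw [hhk]
    exact AnalyticAt.comp (g := fun y : Vd d × Vd d × Vd d => (Ω k).toFun ((A.χ i).σ y.1) (fderiv ℂ (A.χ i).σ y.1 y.2.1) (fderiv ℂ (A.χ i).σ y.1 y.2.2))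
      (f := fun z => (p z, p z - qc A i g (ξ (p z e)), deriv (qc A i g) (ξ (p z e)))) h1 h2
  have hVz : ∀ z, cV A Ω g i e ξ (F z) = (∑ k, ‖hk k z‖) * ‖(A.χ i).σ (p z)‖ := by
    intro z
    rw [hhk, hp]
    rfl
  have hsum0 : 0 < ∑ k, ‖hk k z₀‖ := by
    rw [hVz] at hV
    rcases (Finset.sum_nonneg fun k (_ : k ∈ Finset.univ) => norm_nonneg (hk k z₀)).eq_or_lt with h0 | h0
    · rw [← h0, zero_mul] at hV
      exact absurd hV (lt_irrefl _)
    · exact h0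
  choose ζ hζ hζ' using fun k => exists_unit (hk k z₀)
  have hS1 : Sub (fun z => ∑ k, ‖hk k z‖) z₀ 0 := by
    have e0 : ∑ k, ζ k * hk k z₀ = ((∑ k, ‖hk k z₀‖ : ℝ) : ℂ) := by
      push_cast
      exact Finset.sum_congr rfl fun k _ => hζ' k
    have e1 : AnalyticAt ℂ (fun z => ∑ k, ζ k * hk k z) z₀ := Finset.analyticAt_fun_sum _ fun k _ => analyticAt_const.mul (hkan k)
    have e2 : (∑ k, ζ k * hk k z₀) ≠ 0 := by
      rw [e0]
      exact_mod_cast hsum0.ne'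
    refine (Sub.of_holo e1 e2).mono ?_ ?_
    · show ‖∑ k, ζ k * hk k z₀‖ = _
      rw [e0, Complex.norm_real, Real.norm_of_nonneg hsum0.le]
    · refine Eventually.of_forall fun z => ?_
      refine (norm_sum_le _ _).trans (Finset.sum_le_sum fun k _ => ?_)
      rw [norm_mul, hζ k, one_mul]
  -- the norm of the lift
  have hσan : AnalyticAt ℂ (fun z => (A.χ i).σ (p z)) z₀ := AnalyticAt.comp (g := (A.χ i).σ) (f := p) ((A.χ i).σ_an _ hp2) han'
  have hσ0 : (A.χ i).σ (p z₀) ≠ 0 := (A.χ i).sigma_ne_zero hX hp2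
  have hfs : fs ((A.χ i).σ (p z₀)) (deriv (fun z => (A.χ i).σ (p z)) z₀) = fs (F z₀) (deriv F z₀) := by
    have hprod : HasDerivAt (fun z => c z • (A.χ i).σ (p z))
        (c z₀ • deriv (fun z => (A.χ i).σ (p z)) z₀ + deriv c z₀ • (A.χ i).σ (p z₀)) z₀ :=
      hcan.differentiableAt.hasDerivAt.smul hσan.differentiableAt.hasDerivAt
    have h1 : F =ᶠ[𝓝 z₀] fun z => c z • (A.χ i).σ (p z) := by
      rw [hp]
      exact hev.mono fun z hz => hz.2
    rw [h1.deriv_eq, hprod.deriv, h1.self_of_nhds]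
    exact (fs_inv hσ0 _ hc0 _).symm
  have hS2 : Sub (fun z => ‖(A.χ i).σ (p z)‖) z₀ (fs (F z₀) (deriv F z₀) ^ 2 / 2) := by
    have h1 := Sub.norm_rpow hσan hσ0 1
    rw [hfs, one_mul] at h1
    exact h1.congr (Eventually.of_forall fun z => Real.rpow_one _)
  have hS3 : Sub (fun z => cV A Ω g i e ξ (F z) ^ (1 / (m : ℝ))) z₀ (1 / m * (0 + fs (F z₀) (deriv F z₀) ^ 2 / 2)) := by
    refine ((hS1.mul hS2).rpow (by positivity)).congr (Eventually.of_forall fun z => ?_)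
    rw [hVz z]
  -- the weight
  have hψan : AnalyticAt ℂ (fun z => ξ (p z e)) z₀ := by
    have h1 : AnalyticAt ℂ (fun p : Vd d => p e) (p z₀) := (ContinuousLinearMap.proj (R := ℂ) (φ := fun _ : Fin d => ℂ) e).analyticAt _
    have h2 : AnalyticAt ℂ (fun z => p z e) z₀ := AnalyticAt.comp (g := fun p : Vd d => p e) (f := p) h1 han'
    exact AnalyticAt.comp (g := ξ) (f := fun z => p z e) (h.xi_an hpe) h2
  have hψd : ‖deriv (fun z => ξ (p z e) - a) z₀‖ ≤ K * (P * fs (F z₀) (deriv F z₀)) := by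
    have h1 : HasDerivAt (fun z => p z e) (deriv p z₀ e) z₀ := hasDerivAt_pi.1 han'.differentiableAt.hasDerivAt e
    have h2 : HasDerivAt (fun z => ξ (p z e) - a) (deriv ξ (p z₀ e) * deriv p z₀ e) z₀ :=
      ((h.xi_an hpe).differentiableAt.hasDerivAt.comp z₀ h1).sub_const a
    rw [h2.deriv, norm_mul]
    refine mul_le_mul (h.xi_deriv hK hpe) ?_ (norm_nonneg _) (by linarith)
    have h3 : deriv p z₀ = fderiv ℂ (A.χ i).q (F z₀) (deriv F z₀) := by rw [hp]; exact hqd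
    have h4 : ‖deriv p z₀ e‖ ≤ ‖deriv p z₀‖ := norm_le_pi_norm _ e
    rw [h3] at h4
    rw [h3]
    refine h4.trans ((hC2 i (F z₀) hx.1.1 hx.1.2.1 (hx.1.2.2.trans (by norm_num)) _).trans ?_)
    exact mul_le_mul_of_nonneg_right (hCP i) (Pool.Agent.H36.BP.fs_nonneg _ _)
  have hS4 : Sub (fun z => Real.exp (-q * ‖ξ (p z e) - a‖ ^ 2)) z₀ (-q * ‖deriv (fun z => ξ (p z e) - a) z₀‖ ^ 2) :=
    Sub.exp_sq (hψan.sub analyticAt_const) (-q)
  have hS5 := hS3.mul hS4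
  have hS6 : Sub (fun z => cW A Ω g q a i e ξ (F z)) z₀ (1 / m * (0 + fs (F z₀) (deriv F z₀) ^ 2 / 2) +
      -q * ‖deriv (fun z => ξ (p z e) - a) z₀‖ ^ 2) := by
    refine hS5.congr (Eventually.of_forall fun z => ?_)
    rw [hp]
    rfl
  refine hS6.anti ?_
  have h1 : ‖deriv (fun z => ξ (p z e) - a) z₀‖ ^ 2 ≤ (K * (P * fs (F z₀) (deriv F z₀))) ^ 2 := pow_le_pow_left₀ (norm_nonneg _) hψd 2
  have h2 : q * ‖deriv (fun z => ξ (p z e) - a) z₀‖ ^ 2 ≤ 1 / (4 * m * (K * P) ^ 2) * (K * (P * fs (F z₀) (deriv F z₀))) ^ 2 :=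
    mul_le_mul hq₀ h1 (by positivity) (by positivity)
  have h3 : 1 / (4 * m * (K * P) ^ 2) * (K * (P * fs (F z₀) (deriv F z₀))) ^ 2 = 1 / (4 * m) * fs (F z₀) (deriv F z₀) ^ 2 := by
    field_simp
  have h4 : 1 / m * (0 + fs (F z₀) (deriv F z₀) ^ 2 / 2) = 1 / (4 * m) * fs (F z₀) (deriv F z₀) ^ 2 + 1 / (4 * m) * fs (F z₀) (deriv F z₀) ^ 2 := by
    field_simp
    ring
  rw [h4]
  linarith

end Pool.Agent.AD.TB
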