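import Pool.Agent.AD.TB.Sub

/-!
# AD TB Tr: translation of a centre by a period
-/

set_option autoImplicit false

open Topology Filter Metric

namespace Pool.Agent.AD.TB

open Pool.Agent.H36.BP (EN fs wd Sub fs_inv)
open Pool.Agent.H14.PP (IsCone CurveAt Tan)
open Pool.Agent.H62.EF (MN pr)
open Pool.Agent.H5.BD (BC evp)
open Pool.Agent.AD.BD

variable {N d : ℕ} {X : Set (EN N)} {m J : ℕ} {A : Atlas d X} {g : ℂ → EN N} {r₁ τ K : ℝ} {a : ℂ} {i : Fin A.n} {e : Fin d} {ξ : ℂ → ℂ}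

theorem Cen.qc_per (hX : IsCone X) (hgX : ∀ z, g z ∈ X) (h : Cen A g r₁ τ K a i e ξ) {l : ℂ} (hl : ∀ z, pr (g (z + l)) = pr (g z)) {w : ℂ}
    (hw : w ∈ ball a (2 * r₁)) : qc A i g (w + l) = qc A i g w :=
  (good_of_pr hX (A.χ i) (hgX (w + l)) (hl w).symm (h.good w hw)).2

theorem Cen.deriv_per (hX : IsCone X) (hgX : ∀ z, g z ∈ X) (h : Cen A g r₁ τ K a i e ξ) {l : ℂ} (hl : ∀ z, pr (g (z + l)) = pr (g z)) {w : ℂ}
    (hw : w ∈ ball a (2 * r₁)) : deriv (qc A i g) (w + l) = deriv (qc A i g) w := by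
  have h1 : (fun w => qc A i g (w + l)) =ᶠ[𝓝 w] qc A i g := by
    filter_upwards [isOpen_ball.mem_nhds hw] with y hy
    exact h.qc_per hX hgX hl hy
  have h2 := h1.deriv_eq
  rw [deriv_comp_add_const] at h2
  exact h2

theorem Cen.dom_per (hX : IsCone X) (hr₁ : 0 < r₁) (hgX : ∀ z, g z ∈ X) (h : Cen A g r₁ τ K a i e ξ) {l : ℂ} (hl : ∀ z, pr (g (z + l)) = pr (g z))
    {x : EN N} : Dom A g τ (a + l) i e x ↔ Dom A g τ a i e x := by
  unfold Dom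
  rw [h.qc_per hX hgX hl (mem_ball_self (by linarith))]

theorem Cen.W_per (hX : IsCone X) (hr₁ : 0 < r₁) (hgX : ∀ z, g z ∈ X) (h : Cen A g r₁ τ K a i e ξ) (Ω : Fin J → BForm d X m) (q : ℝ) {l : ℂ}
    (hl : ∀ z, pr (g (z + l)) = pr (g z)) {x : EN N} (hx : Dom A g τ a i e x) :
    cW A Ω g q (a + l) i e (fun t => ξ t + l) x = cW A Ω g q a i e ξ x := by
  have hm : cpsi A i e ξ x ∈ ball a (2 * r₁) := ball_subset_ball (by linarith) (h.psi_mem hx)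
  have h1 : cpsi A i e (fun t => ξ t + l) x = cpsi A i e ξ x + l := rfl
  have h2 : cs A g i e (fun t => ξ t + l) x = cs A g i e ξ x := by
    unfold cs
    rw [h1, h.qc_per hX hgX hl hm]
  have h3 : cD A g i e (fun t => ξ t + l) x = cD A g i e ξ x := by
    unfold cD
    rw [h1, h.deriv_per hX hgX hl hm]
  unfold cW cV
  rw [h1, h2, h3, add_sub_add_right_eq_sub]

theorem cW_smul (Ω : Fin J → BForm d X m) (q : ℝ) {x : EN N} (hU : x ∈ (A.χ i).U) {c : ℂ} (hc : c ≠ 0) :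
    cW A Ω g q a i e ξ (c • x) = cW A Ω g q a i e ξ x := by
  have hq : (A.χ i).q (c • x) = (A.χ i).q x := (A.χ i).q_smul x hU c hc
  have h1 : cpsi A i e ξ (c • x) = cpsi A i e ξ x := by
    unfold cpsi
    rw [hq]
  have h2 : cs A g i e ξ (c • x) = cs A g i e ξ x := by
    unfold cs
    rw [h1, hq]
  have h3 : cD A g i e ξ (c • x) = cD A g i e ξ x := by
    unfold cD
    rw [h1]
  unfold cW cV
  rw [h1, h2, h3, hq]

/-- a finite net modulo the lattice -/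
theorem exists_net {Λ : AddSubgroup ℂ} (hΛ : Pool.Agent.H62.EF.Lat Λ) {s : ℝ} (hs : 0 < s) :
    ∃ (n : ℕ) (p : Fin n → ℂ), 0 < n ∧ ∀ a : ℂ, ∃ f, ∃ l ∈ Λ, ‖p f + l - a‖ ≤ s := by
  obtain ⟨R, hR, hcov⟩ := hΛ.cocompact
  obtain ⟨t, ht, hcov'⟩ := (isCompact_closedBall (0 : ℂ) R).elim_nhds_subcover (fun z => ball z s) fun z _ => ball_mem_nhds z hs
  obtain ⟨p, hp⟩ : ∃ p : Fin t.card → ℂ, ∀ z ∈ t, ∃ f, p f = z :=
    ⟨fun f => (t.equivFin.symm f : ℂ), fun z hz => ⟨t.equivFin ⟨z, hz⟩, by simp⟩⟩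
  have hmain : ∀ a : ℂ, ∃ f, ∃ l ∈ Λ, ‖p f + l - a‖ ≤ s := by
    intro a
    obtain ⟨l, hl, hal⟩ := hcov a
    have h1 : a - l ∈ closedBall (0 : ℂ) R := by rwa [mem_closedBall_zero_iff]
    obtain ⟨z, hz, hz'⟩ := Set.mem_iUnion₂.1 (hcov' h1)
    obtain ⟨f, hf⟩ := hp z hz
    refine ⟨f, l, hl, ?_⟩
    rw [mem_ball, dist_eq_norm] at hz'
    rw [hf]
    have h2 : z + l - a = -(a - l - z) := by ring
    rw [h2, norm_neg]
    exact hz'.le
  obtain ⟨f, -⟩ := hmain 0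
  exact ⟨t.card, p, f.pos, hmain⟩

end Pool.Agent.AD.TB
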